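import Pool.Agent.Q144.KO.E4a

/-!
# (E4): uniform integrality, the ultraproduct argument
-/

set_option autoImplicit false

namespace Pool.Agent.Q144.KO

open Finset Polynomial FF
open Pool.Agent.Q41.SU
open Pool.Agent.Q41.GT
open Pool.Agent.Q103.EC
open Pool.Agent.Q103.KO

section transfer

variable {ι : Type} (U : Ultrafilter ι) {K : ι → Type} [∀ i, Field (K i)]

/-- the polynomial over the product -/
noncomputable def pR (d : ℕ) (p : ∀ i, (K i)[X]) : (∀ i, K i)[X] := mkp d fun k i => (p i).coeff k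

theorem pR_ev (d : ℕ) (p : ∀ i, (K i)[X]) (i : ι) (hp : (p i).natDegree ≤ d) :
    (pR d p).map (Pi.evalRingHom K i) = p i := by
  unfold pR
  rw [mkp_map]
  exact mkp_self d (p i) hp

/-- the polynomial over the ultraproduct -/
noncomputable def pU (d : ℕ) (p : ∀ i, (K i)[X]) : (UP U K)[X] := (pR d p).map (upi U K)

theorem eval_pU (d : ℕ) (p : ∀ i, (K i)[X]) (hp : ∀ i, (p i).natDegree ≤ d) (r : ∀ i, K i) :
    (pU U d p).eval (upi U K r) = upi U K fun i => (p i).eval (r i) := by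
  unfold pU
  rw [Polynomial.eval_map, Polynomial.eval₂_hom]
  congr 1
  funext i
  have h1 : (pR d p).eval r i = ((pR d p).map (Pi.evalRingHom K i)).eval (r i) := by
    rw [Polynomial.eval_map]
    exact (Polynomial.eval₂_hom (p := pR d p) (Pi.evalRingHom K i) r).symm
  rw [h1, pR_ev d p i (hp i)]

theorem res_pU (d : ℕ) (p q : ∀ i, (K i)[X]) (hp : ∀ i, (p i).natDegree ≤ d)
    (hq : ∀ i, (q i).natDegree ≤ d) :
    resultant (pU U d q) (pU U d p) d d = upi U K fun i => resultant (q i) (p i) d d := by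
  unfold pU
  rw [resultant_map_map]
  congr 1
  funext i
  have h1 := resultant_map_map (pR d q) (pR d p) d d (Pi.evalRingHom K i)
  rw [pR_ev d p i (hp i), pR_ev d q i (hq i)] at h1
  exact h1.symm

theorem coeff_pU (d : ℕ) (p : ∀ i, (K i)[X]) (k : ℕ) (hk : k ≤ d) :
    (pU U d p).coeff k = upi U K fun i => (p i).coeff k := by
  unfold pU pR
  rw [Polynomial.coeff_map, mkp_coeff _ _ _ hk]

theorem natDegree_pU (d : ℕ) (p : ∀ i, (K i)[X]) : (pU U d p).natDegree ≤ d := by
  unfold pU pR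
  exact Polynomial.natDegree_map_le.trans (mkp_natDegree_le _ _)

theorem upi_ne {r : ∀ i, K i} (h : ∀ i, r i ≠ 0) : upi U K r ≠ 0 := by
  rw [Ne, upi_zero, ← Ultrafilter.eventually_not]
  exact Filter.Eventually.of_forall h

theorem Idx.lim {n d E₀ : ℕ} (hd : 1 ≤ d) {p q : ∀ i, (K i)[X]} {z av : ∀ i, Fin n → K i}
    {σ : ι → Fin n → Fin n} (h : ∀ i, Idx d E₀ (p i) (q i) (z i) (av i) (σ i))
    (σ0 : Fin n → Fin n) (hσ0 : ∀ᶠ i in (U : Filter ι), σ i = σ0) :
    Idx d E₀ (pU U d p) (pU U d q) (fun j => upi U K fun i => z i j)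
      (fun j => upi U K fun i => av i j) σ0 := by
  have hp : ∀ i, (p i).natDegree ≤ d := fun i => (h i).hp
  have hq : ∀ i, (q i).natDegree ≤ d := fun i => (h i).hq.le
  have hqd : (pU U d q).natDegree = d := by
    apply le_antisymm (natDegree_pU U d q)
    apply Polynomial.le_natDegree_of_ne_zero
    rw [coeff_pU U d q d le_rfl]
    apply upi_ne
    intro i h0
    have h1 : (q i).leadingCoeff = 0 := by
      unfold Polynomial.leadingCoeff
      rw [(h i).hq]
      exact h0
    rw [Polynomial.leadingCoeff_eq_zero] at h1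
    have h2 := (h i).hq
    rw [h1] at h2
    simp at h2
    omega
  refine ⟨natDegree_pU U d p, hqd, ?_, ?_, ?_, ?_, ?_, ?_⟩
  · rw [cop_iff d hd _ _ (natDegree_pU U d p) hqd, res_pU U d p q hp hq]
    apply upi_ne
    intro i
    exact (cop_iff d hd (p i) (q i) (hp i) (h i).hq).1 (h i).hc
  · intro j j' hjj
    by_contra hne
    have h1 : upi U K ((fun i => z i j) - (fun i => z i j')) ≠ 0 := by
      apply upi_ne
      intro i
      exact sub_ne_zero.2 fun h0 => hne ((h i).hz h0)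
    apply h1
    rw [map_sub]
    exact sub_eq_zero.2 hjj
  · intro j
    rw [eval_pU U d q hq]
    exact upi_ne U fun i => (h i).hq0 j
  · intro j
    rw [eval_pU U d q hq, eval_pU U d p hp, ← upi_div, upi_eq]
    filter_upwards [hσ0] with i hi
    have h1 := (h i).hσ j
    rw [hi] at h1
    exact h1
  · intro j
    exact upi_ne U fun i => (h i).ha j
  · intro j
    rw [eval_pU U d q hq, ← map_pow, ← map_pow, ← map_mul, upi_eq]
    filter_upwards [hσ0] with i hi
    have h1 := (h i).hae j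
    rw [hi] at h1
    exact h1

/-- the values of a polynomial -/
theorem eval_lim [∀ i, CharZero (K i)] {n : ℕ} (w : ∀ i, Fin n → K i) (yv : ∀ i, Fin n → K i)
    (W : ∀ i, K i) (e : Polynomial (MvPolynomial (Ix n) ℚ)) :
    Polynomial.eval₂ ((MvPolynomial.aeval (lgv (fun j => upi U K fun i => w i j)
        (fun j => upi U K fun i => yv i j)) : MvPolynomial (Ix n) ℚ →ₐ[ℚ] UP U K) :
      MvPolynomial (Ix n) ℚ →+* UP U K) (upi U K W) e =
    upi U K fun i => Polynomial.eval₂ ((MvPolynomial.aeval (lgv (w i) (yv i)) :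
      MvPolynomial (Ix n) ℚ →ₐ[ℚ] K i) : MvPolynomial (Ix n) ℚ →+* K i) (W i) e := by
  set ψ : MvPolynomial (Ix n) ℚ →+* (∀ i, K i) := RingHom.pi fun i =>
    ((MvPolynomial.aeval (lgv (w i) (yv i)) : MvPolynomial (Ix n) ℚ →ₐ[ℚ] K i) :
      MvPolynomial (Ix n) ℚ →+* K i) with hψ
  have h1 : ((MvPolynomial.aeval (lgv (fun j => upi U K fun i => w i j)
        (fun j => upi U K fun i => yv i j)) : MvPolynomial (Ix n) ℚ →ₐ[ℚ] UP U K) :
      MvPolynomial (Ix n) ℚ →+* UP U K) = (upi U K).comp ψ := by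
    apply MvPolynomial.ringHom_ext
    · intro r
      have h2 : (((upi U K).comp ψ).comp MvPolynomial.C : ℚ →+* UP U K) =
        (((MvPolynomial.aeval (lgv (fun j => upi U K fun i => w i j)
        (fun j => upi U K fun i => yv i j)) : MvPolynomial (Ix n) ℚ →ₐ[ℚ] UP U K) :
        MvPolynomial (Ix n) ℚ →+* UP U K)).comp MvPolynomial.C := Subsingleton.elim _ _
      exact (congrArg (fun f : ℚ →+* UP U K => f r) h2).symm
    · intro j
      have h3 : ((MvPolynomial.aeval (lgv (fun j => upi U K fun i => w i j)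
        (fun j => upi U K fun i => yv i j)) : MvPolynomial (Ix n) ℚ →ₐ[ℚ] UP U K) :
        MvPolynomial (Ix n) ℚ →+* UP U K) (MvPolynomial.X j) =
        lgv (fun j => upi U K fun i => w i j) (fun j => upi U K fun i => yv i j) j :=
        MvPolynomial.aeval_X _ j
      rw [h3]
      have h4 := map_lgv (upi U K) (upi_div U) (fun j i => w i j) (fun j i => yv i j) j
      rw [← h4]
      show _ = upi U K (ψ (MvPolynomial.X j))
      congr 1
      funext i
      have h5 : ψ (MvPolynomial.X j) i = lgv (w i) (yv i) j := MvPolynomial.aeval_X _ j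
      rw [h5]
      exact map_lgv (Pi.evalRingHom K i) (fun x y => rfl) (fun j i => w i j)
        (fun j i => yv i j) j
  rw [h1, ← Polynomial.hom_eval₂]
  congr 1
  funext i
  exact Polynomial.hom_eval₂ e ψ (Pi.evalRingHom K i) W

end transfer

open Classical in
/-- **The ultraproduct argument.** -/
theorem key {n a b : ℕ} (φ : II a b → ℕ × ℕ) (d E₀ C' : ℕ) (hd : 1 ≤ d)
    (hint : ∀ (K : Type) [Field K] [CharZero K] (p q : K[X]) (z av yv : Fin n → K)
      (σ : Fin n → Fin n) (r : II a b → Fin n) (κ : Option (Ix n)), Idx d E₀ p q z av σ →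
      Function.Injective r → Kd κ → ∃ e : Polynomial (MvPolynomial (Ix n) ℚ), e.Monic ∧
        Polynomial.eval₂ ((MvPolynomial.aeval (lgv z yv) : MvPolynomial (Ix n) ℚ →ₐ[ℚ] K) :
          MvPolynomial (Ix n) ℚ →+* K) (Wv φ E₀ d C' r κ p q z av yv) e = 0) :
    ∃ ee : Finset (Polynomial (MvPolynomial (Ix n) ℚ)), (∀ e ∈ ee, e.Monic) ∧
    ∀ (K : Type) [Field K] [CharZero K] (p q : K[X]) (z av yv : Fin n → K)
      (σ : Fin n → Fin n) (r : II a b → Fin n) (κ : Option (Ix n)), Idx d E₀ p q z av σ →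
      Function.Injective r → Kd κ → ∃ e ∈ ee,
        Polynomial.eval₂ ((MvPolynomial.aeval (lgv z yv) : MvPolynomial (Ix n) ℚ →ₐ[ℚ] K) :
          MvPolynomial (Ix n) ℚ →+* K) (Wv φ E₀ d C' r κ p q z av yv) e = 0 := by
  by_contra hcon
  let T : Type := {e : Polynomial (MvPolynomial (Ix n) ℚ) // e.Monic}
  let ι : Type := Finset T
  have h : ∀ i : ι, ∃ (K : Type) (_ : Field K) (_ : CharZero K) (p q : K[X])
      (z av yv : Fin n → K) (σ : Fin n → Fin n) (r : II a b → Fin n) (κ : Option (Ix n)),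
      Idx d E₀ p q z av σ ∧ Function.Injective r ∧ Kd κ ∧ ∀ e ∈ i,
        Polynomial.eval₂ ((MvPolynomial.aeval (lgv z yv) : MvPolynomial (Ix n) ℚ →ₐ[ℚ] K) :
          MvPolynomial (Ix n) ℚ →+* K) (Wv φ E₀ d C' r κ p q z av yv) e.1 ≠ 0 := by
    intro i
    by_contra hc
    apply hcon
    refine ⟨i.image Subtype.val, ?_, ?_⟩
    · intro e he
      obtain ⟨e', _, rfl⟩ := Finset.mem_image.1 he
      exact e'.2
    · intro K _ _ p q z av yv σ r κ h1 h2 h3
      by_contra hne
      push Not at hne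
      exact hc ⟨K, _, _, p, q, z, av, yv, σ, r, κ, h1, h2, h3, fun e he =>
        hne e.1 (Finset.mem_image_of_mem _ he)⟩
  choose K fK cK p q z av yv σ r κ h1 h2 h3 h4 using h
  let U : Ultrafilter ι := Ultrafilter.of Filter.atTop
  have hU : (U : Filter ι) ≤ Filter.atTop := Ultrafilter.of_le _
  obtain ⟨σ0, hσ0⟩ := ev_const U σ
  obtain ⟨r0, hr0⟩ := ev_const U r
  obtain ⟨κ0, hκ0⟩ := ev_const U κ
  have hI := Idx.lim U hd h1 σ0 hσ0
  have hr : Function.Injective r0 := by
    obtain ⟨i, hi⟩ := hr0.exists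
    rw [← hi]
    exact h2 i
  have hκ : Kd κ0 := by
    obtain ⟨i, hi⟩ := hκ0.exists
    rw [← hi]
    exact h3 i
  obtain ⟨e, he, he0⟩ := hint (UP U K) _ _ _ _ (fun j => upi U K fun i => yv i j) σ0 r0 κ0 hI
    hr hκ
  have h5 := map_Wv (upi U K) (upi_div U) φ E₀ d C' r0 κ0 (pR d p) (pR d q) (fun j i => z i j)
    (fun j i => av i j) (fun j i => yv i j)
  change _ = Wv φ E₀ d C' r0 κ0 (pU U d p) (pU U d q) _ _ _ at h5
  rw [← h5, eval_lim U z yv, upi_zero] at he0
  have h6 : ∀ᶠ i in (U : Filter ι), (⟨e, he⟩ : T) ∈ i := by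
    have := hU (Filter.mem_atTop ({⟨e, he⟩} : ι))
    filter_upwards [this] with i hi
    exact hi (Finset.mem_singleton_self _)
  obtain ⟨i, hi1, hi2, hi3, hi4⟩ := (he0.and (h6.and (hr0.and hκ0))).exists
  apply h4 i ⟨e, he⟩ hi2
  rw [← hi1]
  congr 1
  have h7 := map_Wv (Pi.evalRingHom K i) (fun x y => rfl) φ E₀ d C' r0 κ0 (pR d p) (pR d q)
    (fun j i => z i j) (fun j i => av i j) (fun j i => yv i j)
  rw [pR_ev d p i (h1 i).hp, pR_ev d q i (h1 i).hq.le] at h7
  rw [hi3, hi4]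
  exact h7.symm

/-- integrality in terms of polynomials -/
theorem int_poly {n : ℕ} {K : Type} [Field K] [CharZero K] (z yv : Fin n → K)
    (hz : Function.Injective z) (P : Finset K) (hP : (P : Set K) = Set.range z) (y : K → K)
    (hy : ∀ i, y (z i) = yv i) (W : K) (hW : IsIntegral (Algebra.adjoin ℚ (lgs P y)) W) :
    ∃ e : Polynomial (MvPolynomial (Ix n) ℚ), e.Monic ∧
        Polynomial.eval₂ ((MvPolynomial.aeval (lgv z yv) : MvPolynomial (Ix n) ℚ →ₐ[ℚ] K) :
          MvPolynomial (Ix n) ℚ →+* K) W e = 0 := by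
  obtain ⟨f, hf, hf0⟩ := hW
  have hP' : ∀ s ∈ P, ∃ i, z i = s := by
    intro s hs
    have : s ∈ (P : Set K) := hs
    rw [hP] at this
    exact this
  have hsub : Algebra.adjoin ℚ (lgs P y) ≤
      (MvPolynomial.aeval (lgv z yv) : MvPolynomial (Ix n) ℚ →ₐ[ℚ] K).range := by
    rw [Algebra.adjoin_le_iff]
    rintro s ⟨i, hi, j, hj, l, hl, m, hm, h1, h2, h3, h4, rfl⟩
    obtain ⟨i, rfl⟩ := hP' i hi
    obtain ⟨j, rfl⟩ := hP' j hj
    obtain ⟨l, rfl⟩ := hP' l hl
    obtain ⟨m, rfl⟩ := hP' m hm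
    refine ⟨MvPolynomial.X (i, j, l, m), ?_⟩
    show (MvPolynomial.aeval (lgv z yv)) (MvPolynomial.X (i, j, l, m)) = _
    rw [MvPolynomial.aeval_X]
    unfold lgv
    have hc : i ≠ j ∧ l ≠ m ∧ i ≠ m ∧ l ≠ j :=
      ⟨fun h => h1 (h ▸ rfl), fun h => h2 (h ▸ rfl), fun h => h3 (h ▸ rfl), fun h => h4 (h ▸ rfl)⟩
    rw [if_pos hc]
    unfold lgd slp
    simp only [hy]
  set g : K[X] := f.map (algebraMap (Algebra.adjoin ℚ (lgs P y)) K) with hg
  have hgm : g.Monic := hf.map _
  have hg0 : g.eval W = 0 := by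
    rw [hg, Polynomial.eval_map]
    exact hf0
  have hlift : g ∈ Polynomial.lifts ((MvPolynomial.aeval (lgv z yv) :
      MvPolynomial (Ix n) ℚ →ₐ[ℚ] K) : MvPolynomial (Ix n) ℚ →+* K) := by
    rw [Polynomial.lifts_iff_coeff_lifts]
    intro k
    rw [hg, Polynomial.coeff_map]
    exact hsub (f.coeff k).2
  obtain ⟨e, he1, _, he3⟩ := Polynomial.lifts_and_natDegree_eq_and_monic hlift hgm
  refine ⟨e, he3, ?_⟩
  rw [← Polynomial.eval_map, he1, hg0]

theorem Hv_mem {n : ℕ} {K : Type} [Field K] (E₀ d : ℕ) (α : K → K) (p q : K[X]) (z av : Fin n → K)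
    (hz : Function.Injective z) (P : Finset K) (hP : (P : Set K) = Set.range z)
    (hα : ∀ i, α (z i) = av i) (κ : Option (Ix n)) (hκ : Kd κ) :
    Hv κ E₀ d p q z av ∈ hfs E₀ d α p q P := by
  have hG := GG_eq E₀ d α p q z hz P hP
  have hav : (fun i => α (z i)) = av := funext hα
  rw [hav] at hG
  have hm : ∀ i, z i ∈ P := by
    intro i
    have : z i ∈ (P : Set K) := by rw [hP]; exact ⟨i, rfl⟩
    exact this
  cases κ with
  | none => exact Or.inl hG.symm
  | some i =>
    right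
    obtain ⟨h1, h2, h3, h4, h5⟩ := hκ i rfl
    refine ⟨_, ⟨z i.1, hm _, z i.2.1, hm _, z i.2.2.1, hm _, z i.2.2.2, hm _, hz.ne h1, hz.ne h2,
      hz.ne h3, hz.ne h4, hz.ne h5, rfl⟩, ?_⟩
    rw [hG]
    rfl

theorem exists_Hv {n : ℕ} {K : Type} [Field K] (E₀ d : ℕ) (α : K → K) (p q : K[X]) (z : Fin n → K)
    (hz : Function.Injective z) (P : Finset K) (hP : (P : Set K) = Set.range z) (h : K)
    (hh : h ∈ hfs E₀ d α p q P) : ∃ κ : Option (Ix n), Kd κ ∧
      h = Hv κ E₀ d p q z (fun i => α (z i)) := by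
  have hG := GG_eq E₀ d α p q z hz P hP
  have hP' : ∀ s ∈ P, ∃ i, z i = s := by
    intro s hs
    have : s ∈ (P : Set K) := hs
    rw [hP] at this
    exact this
  rcases hh with hh | ⟨c, ⟨x0, h0, x1, h1, x2, h2, x3, h3, h4, h5, h6, h7, h8, rfl⟩, hh⟩
  · exact ⟨none, fun i hi => by simp at hi, hh.trans hG⟩
  · obtain ⟨i0, rfl⟩ := hP' x0 h0
    obtain ⟨i1, rfl⟩ := hP' x1 h1
    obtain ⟨i2, rfl⟩ := hP' x2 h2
    obtain ⟨i3, rfl⟩ := hP' x3 h3
    refine ⟨some (i0, i1, i2, i3), ?_, ?_⟩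
    · intro i hi
      have : (i0, i1, i2, i3) = i := by simpa using hi
      subst this
      exact ⟨fun h => h4 (congrArg z h), fun h => h5 (congrArg z h), fun h => h6 (congrArg z h),
        fun h => h7 (congrArg z h), fun h => h8 (congrArg z h)⟩
    · rw [hh, hG]
      rfl

/-- (E4) **Uniform integrality.** -/
theorem t_uni : S_intg → S_uni := by
  classical
  intro H d hd
  obtain ⟨a, b, φ, hb, hba, ha, hφ, hcst, H⟩ := H d hd
  refine ⟨a, b, φ, hb, hba, ha, hφ, hcst, ?_⟩
  intro n E₀ hE₀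
  obtain ⟨C', hC', H⟩ := H n E₀ hE₀
  refine ⟨C', hC', ?_⟩
  obtain ⟨ee, hee, hkey⟩ := key (n := n) φ d E₀ C' (by omega) (by
    intro K _ _ p q z av yv σ r κ hI hr hκ
    set P : Finset K := univ.image z with hPd
    have hP : (P : Set K) = Set.range z := by
      rw [hPd]
      simp
    have hcard : P.card = n := by
      rw [hPd, Finset.card_image_of_injective _ hI.hz]
      simp
    have hm : ∀ i, z i ∈ P := fun i => Finset.mem_image_of_mem _ (Finset.mem_univ i)
    have hP' : ∀ s ∈ P, ∃ i, z i = s := by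
      intro s hs
      obtain ⟨i, _, rfl⟩ := Finset.mem_image.1 hs
      exact ⟨i, rfl⟩
    set α : K → K := Function.extend z av fun _ => 1 with hαd
    set y : K → K := Function.extend z yv fun _ => 0 with hyd
    have hαz : ∀ i, α (z i) = av i := fun i => hI.hz.extend_apply av _ i
    have hyz : ∀ i, y (z i) = yv i := fun i => hI.hz.extend_apply yv _ i
    have hα : ∀ s, α s ≠ 0 := by
      intro s
      by_cases hs : ∃ i, z i = s
      · obtain ⟨i, rfl⟩ := hs
        rw [hαz]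
        exact hI.ha i
      · rw [hαd, Function.extend_apply' _ _ _ hs]
        exact one_ne_zero
    have hS : Stab p q P := by
      intro s hs
      obtain ⟨i, rfl⟩ := hP' s hs
      refine ⟨hI.hq0 i, ?_⟩
      rw [hI.hσ i]
      exact hm _
    have hαe : ∀ s ∈ P, α s ^ d = q.eval s ^ E₀ * α (p.eval s / q.eval s) := by
      intro s hs
      obtain ⟨i, rfl⟩ := hP' s hs
      rw [hI.hσ i, hαz, hαz]
      exact hI.hae i
    have h1 := (H ℚ K p q hI.hp hI.hq hI.hc P hS hcard α hα hαe y (fun l => z (r l))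
      (fun l l' h => hr (hI.hz h)) (fun l => hm _) _
      (Hv_mem E₀ d α p q z av hI.hz P hP hαz κ hκ)).1
    rw [Phi_eq] at h1
    simp only [hαz, hyz] at h1
    exact int_poly z yv hI.hz P hP y hyz _ h1)
  refine ⟨ee, hee, ?_⟩
  intro K _ _ p q hp hq hc z hz P hP hS α hα hαe y x hx hxP h hh
  have hcard : P.card = n := by
    have hP' : P = univ.image z := by
      apply Finset.coe_injective
      rw [hP]
      simp
    rw [hP', Finset.card_image_of_injective _ hz]
    simp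
  have hm : ∀ i, z i ∈ P := by
    intro i
    have : z i ∈ (P : Set K) := by rw [hP]; exact ⟨i, rfl⟩
    exact this
  have hP' : ∀ s ∈ P, ∃ i, z i = s := by
    intro s hs
    have : s ∈ (P : Set K) := hs
    rw [hP] at this
    exact this
  refine ⟨?_, ?_⟩
  · have hσ : ∀ i, ∃ j, p.eval (z i) / q.eval (z i) = z j := by
      intro i
      obtain ⟨j, hj⟩ := hP' _ (hS (z i) (hm i)).2
      exact ⟨j, hj.symm⟩
    choose σ hσ using hσ
    have hr : ∀ l, ∃ i, x l = z i := by
      intro l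
      obtain ⟨j, hj⟩ := hP' _ (hxP l)
      exact ⟨j, hj.symm⟩
    choose r hr using hr
    have hx' : x = fun l => z (r l) := funext hr
    obtain ⟨κ, hκ, hκh⟩ := exists_Hv E₀ d α p q z hz P hP h hh
    have hI : Idx d E₀ p q z (fun i => α (z i)) σ := by
      refine ⟨hp, hq, hc, hz, fun i => (hS (z i) (hm i)).1, hσ, fun i => hα _, fun i => ?_⟩
      have := hαe (z i) (hm i)
      rw [hσ i] at this
      exact this
    obtain ⟨e, he, he0⟩ := hkey K p q z (fun i => α (z i)) (fun i => y (z i)) σ r κ hI (by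
      intro l l' hll
      apply hx
      rw [hr, hr, hll]) hκ
    refine ⟨e, he, ?_⟩
    rw [lgJ_eq, hx', Phi_eq, hκh]
    exact he0
  · intro k _ _ _ v D hD hyD
    exact (H k K p q hp hq hc P hS hcard α hα hαe y x hx hxP h hh).2 v D hD hyD

end Pool.Agent.Q144.KO
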