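import Mathlib

/-!
# Ultraproducts of fields
-/

set_option autoImplicit false

namespace Pool.Agent.Q144.KO

open Filter Polynomial

section

variable {ι : Type} (U : Ultrafilter ι) (K : ι → Type) [∀ i, Field (K i)]

/-- the ideal of the sequences which are zero almost everywhere -/
def uid : Ideal (∀ i, K i) where
  carrier := {r | ∀ᶠ i in (U : Filter ι), r i = 0}
  add_mem' := by
    intro a b ha hb
    filter_upwards [ha, hb] with i h1 h2
    simp [h1, h2]
  zero_mem' := by simp
  smul_mem' := by
    intro c x hx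
    filter_upwards [hx] with i h1
    simp [h1]

variable {K} in
theorem mem_uid {r : ∀ i, K i} : r ∈ uid U K ↔ ∀ᶠ i in (U : Filter ι), r i = 0 := Iff.rfl

instance uid_max : (uid U K).IsMaximal := by
  rw [Ideal.isMaximal_iff]
  constructor
  · intro h
    rw [mem_uid] at h
    obtain ⟨i, hi⟩ := h.exists
    simp at hi
  · intro J x hJ hx hxJ
    rw [mem_uid, ← Ultrafilter.eventually_not] at hx
    have h1 : x * x⁻¹ ∈ J := J.mul_mem_right _ hxJ
    have h2 : 1 - x * x⁻¹ ∈ J := by
      apply hJ
      rw [mem_uid]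
      filter_upwards [hx] with i hi
      simp [mul_inv_cancel₀ hi]
    have := J.add_mem h1 h2
    simpa using this

/-- the ultraproduct -/
def UP : Type := (∀ i, K i) ⧸ uid U K

noncomputable instance instFieldUP : Field (UP U K) := Ideal.Quotient.field (uid U K)

/-- the projection -/
noncomputable def upi : (∀ i, K i) →+* UP U K := Ideal.Quotient.mk (uid U K)

variable {K}

theorem upi_eq {r s : ∀ i, K i} : upi U K r = upi U K s ↔ ∀ᶠ i in (U : Filter ι), r i = s i := by
  have h0 : upi U K r = upi U K s ↔ r - s ∈ uid U K := Ideal.Quotient.eq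
  rw [h0, mem_uid]
  constructor
  · intro h
    filter_upwards [h] with i hi
    simpa [sub_eq_zero] using hi
  · intro h
    filter_upwards [h] with i hi
    simp [hi]

theorem upi_zero {r : ∀ i, K i} : upi U K r = 0 ↔ ∀ᶠ i in (U : Filter ι), r i = 0 := by
  rw [← map_zero (upi U K), upi_eq]
  rfl

theorem upi_inv (r : ∀ i, K i) : upi U K r⁻¹ = (upi U K r)⁻¹ := by
  by_cases h : upi U K r = 0
  · rw [h, inv_zero, upi_zero]
    rw [upi_zero] at h
    filter_upwards [h] with i hi
    simp [hi]
  · apply eq_inv_of_mul_eq_one_left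
    rw [← map_mul, ← map_one (upi U K), upi_eq]
    rw [upi_zero, ← Ultrafilter.eventually_not] at h
    filter_upwards [h] with i hi
    simp [inv_mul_cancel₀ hi]

theorem upi_div (r s : ∀ i, K i) : upi U K (r / s) = upi U K r / upi U K s := by
  rw [div_eq_mul_inv, div_eq_mul_inv, map_mul, upi_inv]

instance instCharZeroUP [∀ i, CharZero (K i)] : CharZero (UP U K) := by
  apply charZero_of_inj_zero
  intro n hn
  have h : upi U K (n : ∀ i, K i) = 0 := by rw [map_natCast, hn]
  rw [upi_zero] at h
  obtain ⟨i, hi⟩ := h.exists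
  simpa using hi

/-- finite colorings are constant almost everywhere -/
theorem ev_const {T : Type} [Finite T] (c : ι → T) : ∃ t, ∀ᶠ i in (U : Filter ι), c i = t := by
  rw [← Ultrafilter.eventually_exists_iff]
  filter_upwards with i
  exact ⟨c i, rfl⟩

end

/-- a polynomial with given coefficients -/
noncomputable def mkp {R : Type*} [Semiring R] (d : ℕ) (c : ℕ → R) : R[X] :=
  ∑ i ∈ Finset.range (d + 1), C (c i) * X ^ i

theorem mkp_map {R S : Type*} [Semiring R] [Semiring S] (f : R →+* S) (d : ℕ) (c : ℕ → R) :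
    (mkp d c).map f = mkp d (fun i => f (c i)) := by
  unfold mkp
  rw [Polynomial.map_sum]
  apply Finset.sum_congr rfl
  intro i _
  simp

theorem mkp_coeff {R : Type*} [Semiring R] (d : ℕ) (c : ℕ → R) (i : ℕ) (hi : i ≤ d) :
    (mkp d c).coeff i = c i := by
  unfold mkp
  rw [Polynomial.finsetSum_coeff, Finset.sum_eq_single i]
  · simp
  · intro j _ hj
    simp [Polynomial.coeff_X_pow, hj.symm]
  · intro h
    exact absurd (Finset.mem_range.2 (by omega)) h

theorem mkp_natDegree_le {R : Type*} [Semiring R] (d : ℕ) (c : ℕ → R) : (mkp d c).natDegree ≤ d := by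
  unfold mkp
  apply Polynomial.natDegree_sum_le_of_forall_le
  intro i hi
  have := Finset.mem_range.1 hi
  exact (Polynomial.natDegree_C_mul_X_pow_le _ _).trans (by omega)

theorem mkp_self {R : Type*} [Semiring R] (d : ℕ) (p : R[X]) (h : p.natDegree ≤ d) :
    mkp d (fun i => p.coeff i) = p := by
  ext i
  by_cases hi : i ≤ d
  · rw [mkp_coeff _ _ _ hi]
  · rw [Polynomial.coeff_eq_zero_of_natDegree_lt (lt_of_le_of_lt (mkp_natDegree_le _ _) (by omega)),
      Polynomial.coeff_eq_zero_of_natDegree_lt (by omega)]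

theorem cop_iff {K : Type*} [Field K] (d : ℕ) (hd : 1 ≤ d) (p q : K[X]) (hp : p.natDegree ≤ d)
    (hq : q.natDegree = d) : IsCoprime p q ↔ resultant q p d d ≠ 0 := by
  have h1 : resultant q p d d = q.coeff d ^ (d - p.natDegree) * resultant q p := by
    have := resultant_add_right_deg q p d p.natDegree (d - p.natDegree) le_rfl
    rw [show p.natDegree + (d - p.natDegree) = d by omega] at this
    rw [this]
    simp only [hq]
  have h2 : q.coeff d ≠ 0 := by
    rw [← hq]
    intro h
    have : q.leadingCoeff = 0 := h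
    rw [Polynomial.leadingCoeff_eq_zero] at this
    rw [this] at hq
    simp at hq
    omega
  have h3 : q ≠ 0 := by
    intro h
    rw [h] at hq
    simp at hq
    omega
  rw [h1, mul_ne_zero_iff, Ne, Ne, resultant_eq_zero_iff]
  constructor
  · intro h
    exact ⟨pow_ne_zero _ h2, fun h' => h'.2 h.symm⟩
  · intro h
    by_contra h'
    exact h.2 ⟨Or.inl h3, fun h'' => h' h''.symm⟩

end Pool.Agent.Q144.KO
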