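import Pool.Agent.Q103.KO.Stm1
import Pool.Agent.Q144.KO.Ultra

/-!
# (E4): the data in terms of indices
-/

set_option autoImplicit false

namespace Pool.Agent.Q144.KO

open Finset Polynomial FF

open Pool.Agent.Q41.SU
open Pool.Agent.Q41.GT
open Pool.Agent.Q103.EC
open Pool.Agent.Q103.KO

section defs

variable {A : Type} [CommRing A] [Div A]

/-- `gfn` with given values -/
noncomputable def gv (E₀ d : ℕ) (p q : A[X]) (z z' a a' : A) : A :=
  ((z - z') ^ (E₀ * (d * (d - 1))) * resultant q p d d ^ E₀) / (a * a') ^ (d * (d - 1))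

/-- `GG` with given values -/
noncomputable def GGv {n : ℕ} (E₀ d : ℕ) (p q : A[X]) (z a : Fin n → A) : A :=
  ∏ i, ∏ j ∈ univ.erase i, gv E₀ d p q (z i) (z j) (a i) (a j)

/-- `PhiY` with given values -/
noncomputable def Phv {a b : ℕ} (φ : II a b → ℕ × ℕ) (E₀ d : ℕ) (p q : A[X])
    (x ax y : II a b → A) : A :=
  wro φ x y ^ (2 * ((a + 1) * (b + 1) - 1) * b * (E₀ * (d * (d - 1)))) *
      (∏ l, ∏ j ∈ univ.erase l, gv E₀ d p q (x l) (x j) (ax l) (ax j)) ^
        (4 * ((a + 1) * (b + 1) - 1)) /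
    (∏ l, ∏ j ∈ univ.erase l, (x l - x j)) ^ ((a + b) * b * (E₀ * (d * (d - 1))))

/-- the elements of `hfs` with given values -/
noncomputable def Hv {n : ℕ} (κ : Option (Ix n)) (E₀ d : ℕ) (p q : A[X]) (z a : Fin n → A) : A :=
  match κ with
  | none => GGv E₀ d p q z a
  | some i => ((z i.2.2.2 - z i.1) * (z i.2.1 - z i.2.2.1)) /
      ((z i.2.2.2 - z i.2.2.1) * (z i.2.1 - z i.1)) * GGv E₀ d p q z a

/-- `lgJ` with given values -/
noncomputable def lgv {n : ℕ} (z y : Fin n → A) (i : Ix n) : A :=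
  if i.1 ≠ i.2.1 ∧ i.2.2.1 ≠ i.2.2.2 ∧ i.1 ≠ i.2.2.2 ∧ i.2.2.1 ≠ i.2.1 then
    (y i.1 - y i.2.1) / (z i.1 - z i.2.1) +
      (y i.2.2.1 - y i.2.2.2) / (z i.2.2.1 - z i.2.2.2) -
      (y i.1 - y i.2.2.2) / (z i.1 - z i.2.2.2) -
      (y i.2.2.1 - y i.2.1) / (z i.2.2.1 - z i.2.1)
  else 0

/-- the integral element with given values -/
noncomputable def Wv {n a b : ℕ} (φ : II a b → ℕ × ℕ) (E₀ d C' : ℕ) (r : II a b → Fin n)
    (κ : Option (Ix n)) (p q : A[X]) (z av yv : Fin n → A) : A :=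
  Phv φ E₀ d p q (fun l => z (r l)) (fun l => av (r l)) (fun l => yv (r l)) ^ C' *
    Hv κ E₀ d p q z av

end defs

section hom

variable {A B : Type} [CommRing A] [Div A] [CommRing B] [Div B] (f : A →+* B)
  (hf : ∀ x y, f (x / y) = f x / f y)

include hf

theorem map_gv (E₀ d : ℕ) (p q : A[X]) (z z' a a' : A) :
    f (gv E₀ d p q z z' a a') = gv E₀ d (p.map f) (q.map f) (f z) (f z') (f a) (f a') := by
  unfold gv
  rw [hf, resultant_map_map]
  simp

theorem map_GGv {n : ℕ} (E₀ d : ℕ) (p q : A[X]) (z a : Fin n → A) :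
    f (GGv E₀ d p q z a) = GGv E₀ d (p.map f) (q.map f) (fun i => f (z i)) (fun i => f (a i)) := by
  unfold GGv
  simp only [map_prod, map_gv f hf]

omit [Div A] [Div B] hf in
theorem map_wro {a b : ℕ} (φ : II a b → ℕ × ℕ) (x y : II a b → A) :
    f (wro φ x y) = wro φ (fun l => f (x l)) (fun l => f (y l)) := by
  unfold wro
  rw [RingHom.map_det]
  congr 1
  ext l c
  simp

theorem map_Phv {a b : ℕ} (φ : II a b → ℕ × ℕ) (E₀ d : ℕ) (p q : A[X]) (x ax y : II a b → A) :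
    f (Phv φ E₀ d p q x ax y) = Phv φ E₀ d (p.map f) (q.map f) (fun l => f (x l))
      (fun l => f (ax l)) (fun l => f (y l)) := by
  unfold Phv
  simp only [hf, map_mul, map_pow, map_prod, map_sub, map_gv f hf, map_wro]

theorem map_Hv {n : ℕ} (κ : Option (Ix n)) (E₀ d : ℕ) (p q : A[X]) (z a : Fin n → A) :
    f (Hv κ E₀ d p q z a) =
      Hv κ E₀ d (p.map f) (q.map f) (fun i => f (z i)) (fun i => f (a i)) := by
  unfold Hv
  cases κ with
  | none => exact map_GGv f hf E₀ d p q z a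
  | some i => simp only [map_mul, hf, map_sub, map_GGv f hf]

theorem map_lgv {n : ℕ} (z y : Fin n → A) (i : Ix n) :
    f (lgv z y i) = lgv (fun i => f (z i)) (fun i => f (y i)) i := by
  unfold lgv
  split_ifs
  · simp only [map_add, map_sub, hf]
  · simp

theorem map_Wv {n a b : ℕ} (φ : II a b → ℕ × ℕ) (E₀ d C' : ℕ) (r : II a b → Fin n)
    (κ : Option (Ix n)) (p q : A[X]) (z av yv : Fin n → A) :
    f (Wv φ E₀ d C' r κ p q z av yv) = Wv φ E₀ d C' r κ (p.map f) (q.map f) (fun i => f (z i))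
      (fun i => f (av i)) (fun i => f (yv i)) := by
  unfold Wv
  simp only [map_mul, map_pow, map_Phv f hf, map_Hv f hf]

end hom

/-- the data in terms of indices -/
structure Idx {K : Type} [Field K] {n : ℕ} (d E₀ : ℕ) (p q : K[X]) (z av : Fin n → K)
    (σ : Fin n → Fin n) : Prop where
  hp : p.natDegree ≤ d
  hq : q.natDegree = d
  hc : IsCoprime p q
  hz : Function.Injective z
  hq0 : ∀ i, q.eval (z i) ≠ 0
  hσ : ∀ i, p.eval (z i) / q.eval (z i) = z (σ i)
  ha : ∀ i, av i ≠ 0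
  hae : ∀ i, av i ^ d = q.eval (z i) ^ E₀ * av (σ i)

/-- the indices of a cross ratio -/
def Kd {n : ℕ} (κ : Option (Ix n)) : Prop :=
  ∀ i, κ = some i → i.1 ≠ i.2.1 ∧ i.1 ≠ i.2.2.1 ∧ i.2.1 ≠ i.2.2.1 ∧ i.2.2.2 ≠ i.2.2.1 ∧
    i.2.2.2 ≠ i.1

theorem lgJ_eq {n : ℕ} {K : Type} [Field K] (z : Fin n → K) (y : K → K) :
    lgJ z y = lgv z (fun i => y (z i)) := by
  funext i
  unfold lgJ lgv lgd slp
  rfl

theorem GG_eq {n : ℕ} {K : Type} [Field K] (E₀ d : ℕ) (α : K → K) (p q : K[X]) (z : Fin n → K)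
    (hz : Function.Injective z) (P : Finset K) (hP : (P : Set K) = Set.range z) :
    GG E₀ d α p q P = GGv E₀ d p q z (fun i => α (z i)) := by
  classical
  have hP' : P = univ.image z := by
    apply Finset.coe_injective
    rw [hP]
    simp
  unfold GG GGv
  subst hP'
  rw [Finset.prod_image (fun i _ j _ h => hz h)]
  apply Finset.prod_congr rfl
  intro i _
  have h2 : (univ.image z).erase (z i) = (univ.erase i).image z := by
    ext x
    simp only [mem_erase, mem_image, mem_univ, true_and, ne_eq]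
    constructor
    · rintro ⟨h1, j, rfl⟩
      exact ⟨j, ⟨fun h => h1 (h ▸ rfl), trivial⟩, rfl⟩
    · rintro ⟨j, ⟨h1, _⟩, rfl⟩
      exact ⟨fun h => h1 (hz h), j, rfl⟩
  rw [h2, Finset.prod_image (fun i _ j _ h => hz h)]
  rfl

theorem Phi_eq {n a b : ℕ} {K : Type} [Field K] (φ : II a b → ℕ × ℕ) (E₀ d : ℕ) (α : K → K)
    (p q : K[X]) (z : Fin n → K) (r : II a b → Fin n) (y : K → K) :
    PhiY φ E₀ d α p q (fun l => z (r l)) y = Phv φ E₀ d p q (fun l => z (r l))
      (fun l => α (z (r l))) (fun l => y (z (r l))) := by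
  unfold PhiY Phv pprod gfn gv
  rfl

end Pool.Agent.Q144.KO
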