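import Pool.Agent.Q103.KO.Stm2
import Pool.Agent.Q144.KO.E4a

/-!
# (F4), part 3: specializations as homomorphisms
-/

set_option autoImplicit false

namespace Pool.Agent.Q144.KO

open Finset
open Pool.Agent.Q41.SU
open Pool.Agent.Q41.GT
open Pool.Agent.TH466.QG (Sp)

section

variable {k K E : Type} [Field k] [Field K] [Field E] [Algebra k K] [Algebra k E] (S : Sp k K E)

/-- the domain of a specialization -/
def dom : Subalgebra k K where
  carrier := {x | ∃ y, S.T x y}
  mul_mem' := by
    rintro x x' ⟨y, hy⟩ ⟨y', hy'⟩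
    exact ⟨_, S.mul hy hy'⟩
  add_mem' := by
    rintro x x' ⟨y, hy⟩ ⟨y', hy'⟩
    exact ⟨_, S.add hy hy'⟩
  algebraMap_mem' := fun c => ⟨_, S.const c⟩

variable {S} in
theorem mem_dom {x : K} {y : E} (h : S.T x y) : x ∈ dom S := ⟨y, h⟩

/-- the homomorphism -/
noncomputable def hom : dom S →+* E where
  toFun x := Classical.choose x.2
  map_one' := S.ext (Classical.choose_spec (1 : dom S).2) S.one
  map_mul' x y := S.ext (Classical.choose_spec (x * y).2)
    (S.mul (Classical.choose_spec x.2) (Classical.choose_spec y.2))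
  map_zero' := S.ext (Classical.choose_spec (0 : dom S).2) S.zero
  map_add' x y := S.ext (Classical.choose_spec (x + y).2)
    (S.add (Classical.choose_spec x.2) (Classical.choose_spec y.2))

theorem hom_spec (x : dom S) : S.T x.1 (hom S x) := Classical.choose_spec x.2

open Classical in
/-- elements of the domain -/
noncomputable def lf (z : K) : dom S := if h : z ∈ dom S then ⟨z, h⟩ else 0

theorem lf_coe {z : K} (h : z ∈ dom S) : (lf S z : K) = z := by
  unfold lf
  rw [dif_pos h]

/-- the specialization as a function -/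
noncomputable def sg (z : K) : E := hom S (lf S z)

variable {S} in
theorem sg_eq {x : K} {y : E} (h : S.T x y) : sg S x = y := by
  have h1 := hom_spec S (lf S x)
  rw [lf_coe S (mem_dom h)] at h1
  exact S.ext h1 h

theorem sg_T {x : K} (h : x ∈ dom S) : S.T x (sg S x) := by
  obtain ⟨y, hy⟩ := h
  rw [sg_eq hy]
  exact hy

open Classical in
/-- the specialization of an identity between polynomials, evaluated -/
theorem ident {w a b : ℕ} (φ : II a b → ℕ × ℕ) (PF : Finset (II a b → K))
    (g : (II a b → K) → MvPolynomial (Fin w) K) (δ : Fin w → K → K) (j₀ : Fin w) (N : ℕ)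
    (hid : (MvPolynomial.X j₀ : MvPolynomial (Fin w) K) ^ N = ∑ x ∈ PF,
      wro φ (fun l => MvPolynomial.C (x l))
        (fun l => ∑ j, MvPolynomial.C (δ j (x l)) * MvPolynomial.X j) * g x)
    (h1 : ∀ x ∈ PF, ∀ l, x l ∈ dom S) (h2 : ∀ x ∈ PF, ∀ l j, δ j (x l) ∈ dom S)
    (h3 : ∀ x ∈ PF, ∀ m ∈ (g x).support, (g x).coeff m ∈ dom S) (lam : Fin w → E) :
    lam j₀ ^ N = ∑ x ∈ PF, wro φ (fun l => sg S (x l))
        (fun l => ∑ j, sg S (δ j (x l)) * lam j) *
      ∑ m ∈ (g x).support, sg S ((g x).coeff m) * ∏ j, lam j ^ m j := by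
  set ι : dom S →+* K := (dom S).val.toRingHom with hι
  have hιinj : Function.Injective ι := Subtype.val_injective
  have hιlf : ∀ z ∈ dom S, ι (lf S z) = z := fun z hz => lf_coe S hz
  obtain ⟨gA, hgA⟩ : ∃ gA : (II a b → K) → MvPolynomial (Fin w) (dom S),
    ∀ x, gA x = ∑ m ∈ (g x).support, MvPolynomial.monomial m (lf S ((g x).coeff m)) :=
    ⟨_, fun _ => rfl⟩
  have hmg : ∀ x ∈ PF, MvPolynomial.map ι (gA x) = g x := by
    intro x hx
    rw [hgA, map_sum]
    conv_rhs => rw [← MvPolynomial.support_sum_monomial_coeff (g x)]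
    apply Finset.sum_congr rfl
    intro m hm
    rw [MvPolynomial.map_monomial, hιlf _ (h3 x hx m hm)]
  have hidA : (MvPolynomial.X j₀ : MvPolynomial (Fin w) (dom S)) ^ N = ∑ x ∈ PF,
      wro φ (fun l => MvPolynomial.C (lf S (x l)))
        (fun l => ∑ j, MvPolynomial.C (lf S (δ j (x l))) * MvPolynomial.X j) * gA x := by
    apply MvPolynomial.map_injective ι hιinj
    rw [map_pow, MvPolynomial.map_X, hid, map_sum]
    apply Finset.sum_congr rfl
    intro x hx
    rw [map_mul, hmg x hx, map_wro]
    congr 2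
    · funext l
      rw [MvPolynomial.map_C, hιlf _ (h1 x hx l)]
    · funext l
      rw [map_sum]
      apply Finset.sum_congr rfl
      intro j _
      rw [map_mul, MvPolynomial.map_C, MvPolynomial.map_X, hιlf _ (h2 x hx l j)]
  have h4 := congrArg (MvPolynomial.eval₂Hom (hom S) lam) hidA
  rw [map_pow, MvPolynomial.eval₂Hom_X', map_sum] at h4
  rw [h4]
  apply Finset.sum_congr rfl
  intro x hx
  rw [map_mul, map_wro]
  congr 1
  · congr 1
    · funext l
      exact MvPolynomial.eval₂Hom_C _ _ _
    · funext l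
      rw [map_sum]
      apply Finset.sum_congr rfl
      intro j _
      rw [map_mul, MvPolynomial.eval₂Hom_X', MvPolynomial.eval₂Hom_C]
      rfl
  · rw [hgA, map_sum]
    apply Finset.sum_congr rfl
    intro m _
    rw [MvPolynomial.coe_eval₂Hom, MvPolynomial.eval₂_monomial]
    rw [Finsupp.prod_fintype _ _ (fun i => pow_zero _)]
    rfl

end

end Pool.Agent.Q144.KO
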