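import Pool.Agent.Q144.KO.F4a
import Pool.Agent.Q144.KO.F4c

/-!
# (F4), part 4: the main estimate
-/

set_option autoImplicit false

namespace Pool.Agent.Q144.KO

open Finset Polynomial
open Pool.Agent.Q41.SU
open Pool.Agent.Q41.GT
open Pool.Agent.Q103.EC
open Pool.Agent.Q103.KO
open Pool.Agent.TH466.QG (Sp)

theorem vec_bound {w : ℕ} (v : Fin w → ℂ) (M₀ c : ℕ) (hc : 1 ≤ c) (B : ℝ)
    (h : ∀ j, ‖v j‖ ^ (M₀ + c) ≤ B * ‖v‖ ^ M₀) : ‖v‖ ≤ max 1 B := by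
  by_contra hlt
  push Not at hlt
  obtain ⟨h1, h2⟩ := max_lt_iff.1 hlt
  have h3 : ∃ j, ‖v‖ ≤ ‖v j‖ := by
    by_contra h4
    push Not at h4
    have := (pi_norm_lt_iff (by linarith : 0 < ‖v‖)).2 h4
    exact lt_irrefl _ this
  obtain ⟨j, hj⟩ := h3
  have h4 := h j
  have h5 : ‖v‖ ^ (M₀ + c) ≤ B * ‖v‖ ^ M₀ := (pow_le_pow_left₀ (norm_nonneg _) hj _).trans h4
  rw [pow_add, mul_comm] at h5
  have h6 : ‖v‖ ^ c ≤ B := le_of_mul_le_mul_right h5 (by positivity)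
  have h7 : ‖v‖ ≤ ‖v‖ ^ c := le_self_pow₀ h1.le (by omega)
  linarith

theorem reg_wro {a b : ℕ} (φ : II a b → ℕ × ℕ) (x y : II a b → DK) (hx : ∀ l, Reg (x l) 0)
    (hy : ∀ l, Reg (y l) 0) : Reg (wro φ x y) 0 := by
  have h := map_wro (Oz ⟨0, zero_mem_Dm⟩).val.toRingHom φ (fun l => ⟨x l, hx l⟩)
    (fun l => ⟨y l, hy l⟩)
  have h2 : wro φ x y = (Oz ⟨0, zero_mem_Dm⟩).val.toRingHom (wro φ (fun l => ⟨x l, hx l⟩)
    (fun l => ⟨y l, hy l⟩)) := h.symm
  rw [h2]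
  exact (wro φ (fun l => (⟨x l, hx l⟩ : Oz ⟨0, zero_mem_Dm⟩)) (fun l => ⟨y l, hy l⟩)).2

theorem wro_zero {A : Type} [CommRing A] {a b : ℕ} (φ : II a b → ℕ × ℕ) (x y : II a b → A)
    {l l' : II a b} (hl : l ≠ l') (hx : x l = x l') (hy : y l = y l') : wro φ x y = 0 := by
  unfold wro
  apply Matrix.det_zero_of_row_eq hl
  funext c
  simp [hx, hy]

theorem crs_finite {K : Type} [Field K] (P : Finset K) : (crs P).Finite := by
  classical
  apply ((P ×ˢ (P ×ˢ (P ×ˢ P))).finite_toSet.image fun s : K × K × K × K =>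
    ((s.2.2.2 - s.1) * (s.2.1 - s.2.2.1)) / ((s.2.2.2 - s.2.2.1) * (s.2.1 - s.1))).subset
  rintro c ⟨x0, h0, x1, h1, x2, h2, x, h3, -, -, -, -, -, rfl⟩
  refine ⟨(x0, x1, x2, x), ?_, rfl⟩
  simp [h0, h1, h2, h3]

theorem crs_ne {K : Type} [Field K] {P : Finset K} {c : K} (hc : c ∈ crs P) : c ≠ 0 := by
  obtain ⟨x0, h0, x1, h1, x2, h2, x, h3, h4, h5, h6, h7, h8, rfl⟩ := hc
  exact div_ne_zero (mul_ne_zero (sub_ne_zero.2 h8) (sub_ne_zero.2 h6))
    (mul_ne_zero (sub_ne_zero.2 h7) (sub_ne_zero.2 h4.symm))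

theorem gfn_ne {K : Type} [Field K] {E₀ d : ℕ} (hd : 1 ≤ d) {p q : K[X]} (hp : p.natDegree ≤ d)
    (hq : q.natDegree = d) (hc : IsCoprime p q) {α : K → K} (hα : ∀ z, α z ≠ 0) {z z' : K}
    (hz : z ≠ z') : gfn E₀ d α p q z z' ≠ 0 := by
  unfold gfn
  exact div_ne_zero (mul_ne_zero (pow_ne_zero _ (sub_ne_zero.2 hz))
    (pow_ne_zero _ ((cop_iff d hd p q hp hq).1 hc)))
    (pow_ne_zero _ (mul_ne_zero (hα _) (hα _)))

theorem GG_ne {K : Type} [Field K] {E₀ d : ℕ} (hd : 1 ≤ d) {p q : K[X]} (hp : p.natDegree ≤ d)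
    (hq : q.natDegree = d) (hc : IsCoprime p q) {α : K → K} (hα : ∀ z, α z ≠ 0) (P : Finset K) :
    GG E₀ d α p q P ≠ 0 := by
  classical
  unfold GG
  rw [Finset.prod_ne_zero_iff]
  intro z _
  rw [Finset.prod_ne_zero_iff]
  intro z' hz'
  exact gfn_ne hd hp hq hc hα (Finset.ne_of_mem_erase hz').symm

theorem pprod_ne {J : Type} [Fintype J] [DecidableEq J] {K : Type} [Field K] {g : K → K → K}
    {x : J → K} (hx : Function.Injective x) (hg : ∀ z z', z ≠ z' → g z z' ≠ 0) :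
    pprod g x ≠ 0 := by
  unfold pprod
  rw [Finset.prod_ne_zero_iff]
  intro l _
  rw [Finset.prod_ne_zero_iff]
  intro j hj
  exact hg _ _ (hx.ne (Finset.ne_of_mem_erase hj).symm)

/-- the product does not depend on the decidability instance -/
theorem pprod_inst {J : Type} [Fintype J] (d1 d2 : DecidableEq J) {K : Type} [Field K]
    (g : K → K → K) (x : J → K) : @pprod J _ d1 K _ g x = @pprod J _ d2 K _ g x := by
  have h : d1 = d2 := Subsingleton.elim _ _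
  subst h
  rfl

open Classical in
/-- **The main estimate.** -/
theorem main_est {K : Type} [Field K] [Algebra ℂ K] {a b : ℕ} (φ : II a b → ℕ × ℕ) (ha : 2 ≤ a)
    (hb : 1 ≤ b) (hcst : 1 ≤ cst φ) {d n E₀ C' : ℕ} (hd : 2 ≤ d) (hE₀ : 1 ≤ E₀) (hC' : 1 ≤ C')
    (hldk : ∀ Λ : ℝ, ∃ lam : ℝ, ∀ p q : DK[X], p.natDegree ≤ d → q.natDegree = d →
      IsCoprime p q → ∀ P : Finset DK, Stab p q P → P.card = n → ∀ α : DK → DK, (∀ z, α z ≠ 0) →
      (∀ z ∈ P, α z ^ d = q.eval z ^ E₀ * α (p.eval z / q.eval z)) →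
      (∀ c ∈ crs P, Reg c 0 ∧ Fn c 0 ≠ 0 ∧ |Real.log ‖Fn c 0‖| ≤ Λ) →
      ∀ x : II a b → DK, Function.Injective x → (∀ l, x l ∈ P) →
      Reg (PhiY φ E₀ d α p q x (fun z => DDer z) ^ C' * GG E₀ d α p q P) 0 ∧
      ‖Fn (PhiY φ E₀ d α p q x (fun z => DDer z) ^ C' * GG E₀ d α p q P) 0‖ ≤ lam)
    (hspf : S_spf) (p q : K[X]) (hp : p.natDegree ≤ d) (hq : q.natDegree = d)
    (hc : IsCoprime p q) (P : Finset K) (hP : Stab p q P) (hn : P.card = n) (α : K → K)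
    (hα : ∀ z, α z ≠ 0)
    (hαe : ∀ z ∈ P, α z ^ d = q.eval z ^ E₀ * α (p.eval z / q.eval z))
    {w : ℕ} (t : Fin w → K) (δ : Fin w → Derivation ℂ K K) (M₀ : ℕ)
    (g : Fin w → (II a b → K) → MvPolynomial (Fin w) K)
    (hg : ∀ j₀ x, (g j₀ x).IsHomogeneous M₀)
    (hid : ∀ j₀, (MvPolynomial.X j₀ : MvPolynomial (Fin w) K) ^ (M₀ + cst φ) =
          ∑ x ∈ Fintype.piFinset fun _ : II a b => P,
            wro φ (fun l => MvPolynomial.C (x l))
              (fun l => ∑ j, MvPolynomial.C (δ j (x l)) * MvPolynomial.X j) * g j₀ x)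
    {m : ℕ} (u : Fin m → K) :
    ∃ Θ : Set K, Θ.Finite ∧ (∀ j, t j ∈ Θ) ∧ (∀ i, u i ∈ Θ) ∧ ∀ C₀ : ℝ, ∃ C : ℝ,
      ∀ S : Sp ℂ K DK, (∀ ϑ ∈ Θ, ∃ s, S.T ϑ s ∧ Bd C₀ s) →
      (∀ ϑ ∈ Θ, ∀ s, S.T ϑ s → ∃ τ β : Fin w → DK, (∀ j, S.T (t j) (τ j)) ∧
        (∀ j, S.T (δ j ϑ) (β j)) ∧ DDer s = ∑ j, β j * DDer (τ j)) →
      ∀ i s, S.T (u i) s → ‖Fn (DDer s) 0‖ ≤ C := by
  obtain ⟨Θ₂, hΘ₂, hspf'⟩ := hspf ℂ K d E₀ p q (by omega) hE₀ hp hq hc P hP α hα hαe
  set PF : Finset (II a b → K) := Fintype.piFinset fun _ : II a b => P with hPF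
  set G1 : K := GG E₀ d α p q P with hG1
  set pg : (II a b → K) → K := fun x => pprod (gfn E₀ d α p q) x with hpg
  set pd : (II a b → K) → K := fun x => pprod (fun z z' => z - z') x with hpd
  set Θ : Set K := Θ₂ ∪
    ((P : Set K) ∪
    (Set.range t ∪
    (Set.range u ∪
    ((⋃ j, (δ j) '' (P : Set K)) ∪
    ((Set.range fun s : Fin w × Fin m => δ s.1 (u s.2)) ∪
    ((⋃ j₀, ⋃ x ∈ PF, (fun s => (g j₀ x).coeff s) '' ((g j₀ x).support : Set (Fin w →₀ ℕ))) ∪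
    (crs P ∪
    (((fun c => c⁻¹) '' crs P) ∪
    ({G1, G1⁻¹} ∪
    ((pg '' (PF : Set (II a b → K))) ∪
    (((fun x => (pg x)⁻¹) '' (PF : Set (II a b → K))) ∪
    ((pd '' (PF : Set (II a b → K))) ∪
    (((fun x => (pd x)⁻¹) '' (PF : Set (II a b → K))))))))))))))))
    with hΘ
  have hfin : Θ.Finite := by
    refine hΘ₂.union (P.finite_toSet.union ((Set.finite_range t).union ((Set.finite_range u).union
      ((Set.finite_iUnion fun j => P.finite_toSet.image _).union ((Set.finite_range _).union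
      (Set.Finite.union ?_ ((crs_finite P).union (((crs_finite P).image _).union
      ((Set.toFinite _).union ((PF.finite_toSet.image _).union ((PF.finite_toSet.image _).union
      ((PF.finite_toSet.image _).union (PF.finite_toSet.image _)))))))))))))
    refine Set.finite_iUnion fun j₀ => Set.Finite.biUnion PF.finite_toSet fun x _ => ?_
    exact (Finset.finite_toSet _).image _
  have m2 : ∀ ϑ ∈ Θ₂, ϑ ∈ Θ := fun ϑ h => Or.inl h
  have mP : ∀ z ∈ P, z ∈ Θ := fun z h => Or.inr (Or.inl h)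
  have mt : ∀ j, t j ∈ Θ := fun j => Or.inr (Or.inr (Or.inl ⟨j, rfl⟩))
  have mu : ∀ i, u i ∈ Θ := fun i => Or.inr (Or.inr (Or.inr (Or.inl ⟨i, rfl⟩)))
  have mdP : ∀ j, ∀ z ∈ P, δ j z ∈ Θ := fun j z h =>
    Or.inr (Or.inr (Or.inr (Or.inr (Or.inl (Set.mem_iUnion.2 ⟨j, z, h, rfl⟩)))))
  have mdu : ∀ j i, δ j (u i) ∈ Θ := fun j i =>
    Or.inr (Or.inr (Or.inr (Or.inr (Or.inr (Or.inl ⟨(j, i), rfl⟩)))))
  have mg : ∀ j₀, ∀ x ∈ PF, ∀ s ∈ (g j₀ x).support, (g j₀ x).coeff s ∈ Θ := fun j₀ x hx s hs =>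
    Or.inr (Or.inr (Or.inr (Or.inr (Or.inr (Or.inr (Or.inl (Set.mem_iUnion.2 ⟨j₀,
      Set.mem_iUnion₂.2 ⟨x, hx, s, hs, rfl⟩⟩)))))))
  have mc : ∀ c ∈ crs P, c ∈ Θ := fun c h =>
    Or.inr (Or.inr (Or.inr (Or.inr (Or.inr (Or.inr (Or.inr (Or.inl h)))))))
  have mci : ∀ c ∈ crs P, c⁻¹ ∈ Θ := fun c h =>
    Or.inr (Or.inr (Or.inr (Or.inr (Or.inr (Or.inr (Or.inr (Or.inr (Or.inl ⟨c, h, rfl⟩))))))))
  have mG : G1 ∈ Θ := Or.inr (Or.inr (Or.inr (Or.inr (Or.inr (Or.inr (Or.inr (Or.inr (Or.inr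
    (Or.inl (Or.inl rfl))))))))))
  have mGi : G1⁻¹ ∈ Θ := Or.inr (Or.inr (Or.inr (Or.inr (Or.inr (Or.inr (Or.inr (Or.inr (Or.inr
    (Or.inl (Or.inr rfl))))))))))
  have mpg : ∀ x ∈ PF, pg x ∈ Θ := fun x hx => Or.inr (Or.inr (Or.inr (Or.inr (Or.inr (Or.inr
    (Or.inr (Or.inr (Or.inr (Or.inr (Or.inl ⟨x, hx, rfl⟩))))))))))
  have mpgi : ∀ x ∈ PF, (pg x)⁻¹ ∈ Θ := fun x hx => Or.inr (Or.inr (Or.inr (Or.inr (Or.inr (Or.inr
    (Or.inr (Or.inr (Or.inr (Or.inr (Or.inr (Or.inl ⟨x, hx, rfl⟩)))))))))))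
  have mpd : ∀ x ∈ PF, pd x ∈ Θ := fun x hx => Or.inr (Or.inr (Or.inr (Or.inr (Or.inr (Or.inr
    (Or.inr (Or.inr (Or.inr (Or.inr (Or.inr (Or.inr (Or.inl ⟨x, hx, rfl⟩))))))))))))
  have mpdi : ∀ x ∈ PF, (pd x)⁻¹ ∈ Θ := fun x hx => Or.inr (Or.inr (Or.inr (Or.inr (Or.inr (Or.inr
    (Or.inr (Or.inr (Or.inr (Or.inr (Or.inr (Or.inr (Or.inr ⟨x, hx, rfl⟩))))))))))))
  clear_value Θ
  refine ⟨Θ, hfin, mt, mu, ?_⟩
  intro C₀
  obtain ⟨lam, hlam⟩ := hldk (Real.log (max C₀ 1))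
  set C₁ := max C₀ 1 with hC₁
  have hC₁1 : 1 ≤ C₁ := le_max_right _ _
  set A1 := 2 * ((a + 1) * (b + 1) - 1) * b * (E₀ * (d * (d - 1))) with hA1
  set A2 := 4 * ((a + 1) * (b + 1) - 1) with hA2
  set A3 := (a + b) * b * (E₀ * (d * (d - 1))) with hA3
  set B1 := lam * (C₁ * ((C₁ ^ A3) ^ C' * (C₁ ^ A2) ^ C')) with hB1
  set B2 := max 1 B1 with hB2
  set B3 := ∑ j₀, ∑ x ∈ PF, B2 * ((g j₀ x).support.card * C₁) with hB3
  refine ⟨∑ _j : Fin w, C₁ * max 1 B3, ?_⟩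
  intro S hS hD i s hs
  have hA1pos : 1 ≤ A1 * C' := by
    have h1 : 1 ≤ (a + 1) * (b + 1) - 1 := by
      have : 2 * 1 ≤ (a + 1) * (b + 1) := Nat.mul_le_mul (by omega) (by omega)
      omega
    have h2 : 1 ≤ d * (d - 1) := Nat.one_le_iff_ne_zero.2
      (Nat.mul_ne_zero (by omega) (by omega))
    have h3 : A1 ≠ 0 := by
      rw [hA1]
      exact Nat.mul_ne_zero (Nat.mul_ne_zero (Nat.mul_ne_zero (by omega) (by omega)) (by omega))
        (Nat.mul_ne_zero (by omega) (by omega))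
    exact Nat.one_le_iff_ne_zero.2 (Nat.mul_ne_zero h3 (by omega))
  -- the elements of `Θ`
  have hdom : ∀ ϑ ∈ Θ, ϑ ∈ dom S := fun ϑ h => by
    obtain ⟨y, hy, _⟩ := hS ϑ h
    exact mem_dom hy
  have hT : ∀ ϑ ∈ Θ, ∃ y, S.T ϑ y := fun ϑ h => by
    obtain ⟨y, hy, _⟩ := hS ϑ h
    exact ⟨y, hy⟩
  have hbd : ∀ ϑ ∈ Θ, ∀ y, S.T ϑ y → Bd C₁ y := by
    intro ϑ h y hy
    obtain ⟨y', hy', hb'⟩ := hS ϑ h
    rw [S.ext hy hy']
    exact hb'.mono (le_max_left _ _)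
  have hsgbd : ∀ ϑ ∈ Θ, Bd C₁ (sg S ϑ) := fun ϑ h => hbd ϑ h _ (sg_T S (hdom ϑ h))
  have hDs : ∀ ϑ ∈ Θ, ∀ y, S.T ϑ y → DDer y = ∑ j, sg S (δ j ϑ) * DDer (sg S (t j)) := by
    intro ϑ h y hy
    obtain ⟨τ, β, h1, h2, h3⟩ := hD ϑ h y hy
    rw [h3]
    apply Finset.sum_congr rfl
    intro j _
    rw [sg_eq (h1 j), sg_eq (h2 j)]
  -- the map over `DK`
  obtain ⟨p', q', s', α', hp', hq', hc', hs', hinj, hstab, hcrs, hα', hαe', hGT, hpp⟩ :=
    hspf' DK S (fun ϑ h => hT ϑ (m2 ϑ h))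
  have hs'sg : ∀ z ∈ P, s' z = sg S z := fun z hz => (sg_eq (hs' z hz)).symm
  have hcard : (P.image s').card = n := by
    rw [Finset.card_image_of_injOn hinj, hn]
  have hcr : ∀ c ∈ crs (P.image s'), Reg c 0 ∧ Fn c 0 ≠ 0 ∧
      |Real.log ‖Fn c 0‖| ≤ Real.log C₁ := by
    intro c hcc
    obtain ⟨c0, hc0, hTc⟩ := hcrs c hcc
    obtain ⟨y, hy, hyb⟩ := hS _ (mci c0 hc0)
    have hb1 := hbd c0 (mc c0 hc0) c hTc
    have hb2 : Bd C₁ y := hyb.mono (le_max_left _ _)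
    have h1 : c * y = 1 := by
      have h2 := S.mul hTc hy
      rw [mul_inv_cancel₀ (crs_ne hc0)] at h2
      exact S.ext h2 S.one
    have h2 : Fn c 0 * Fn y 0 = 1 := by
      rw [← fn_mul hb1.1 hb2.1, h1, fn_one]
    have h3 : Fn c 0 ≠ 0 := left_ne_zero_of_mul_eq_one h2
    refine ⟨hb1.1, h3, ?_⟩
    have h4 : 0 < ‖Fn c 0‖ := norm_pos_iff.2 h3
    have h5 : ‖Fn c 0‖⁻¹ ≤ C₁ := by
      have h6 : Fn y 0 = (Fn c 0)⁻¹ := eq_inv_of_mul_eq_one_right h2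
      have h7 := hb2.2
      rw [h6, norm_inv] at h7
      exact h7
    rw [abs_le]
    constructor
    · have h6 := Real.log_le_log (inv_pos.2 h4) h5
      rw [Real.log_inv] at h6
      linarith
    · exact Real.log_le_log h4 hb1.2
  have hGi : Bd C₁ (GG E₀ d α' p' q' (P.image s'))⁻¹ ∧ GG E₀ d α' p' q' (P.image s') ≠ 0 := by
    have h0 : G1 ≠ 0 := GG_ne (by omega) hp hq hc hα P
    have h1 := S.inv hGT (hT _ mGi) h0
    exact ⟨hbd _ mGi _ h1, S.ne_zero hGT (hT _ mGi) h0⟩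
  -- the Wronskians
  set W : (II a b → K) → DK := fun x => wro φ (fun l => sg S (x l)) fun l => DDer (sg S (x l))
    with hW
  have hPFm : ∀ x ∈ PF, ∀ l, x l ∈ P := by
    intro x hx l
    rw [hPF, Fintype.mem_piFinset] at hx
    exact hx l
  have hWb : ∀ x ∈ PF, Bd B2 (W x) := by
    intro x hx
    have hxP := hPFm x hx
    have hreg1 : ∀ l, Reg (sg S (x l)) 0 := fun l => (hsgbd _ (mP _ (hxP l))).1
    have hWreg : Reg (W x) 0 := reg_wro φ _ _ hreg1 fun l => reg_der (hreg1 l)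
    by_cases hxi : Function.Injective x
    · have hxh : (fun l => s' (x l)) = fun l => sg S (x l) := funext fun l => hs'sg _ (hxP l)
      obtain ⟨hT1', hT2'⟩ := hpp (II a b) x hxi hxP
      have hT1 : S.T (pg x) (pprod (gfn E₀ d α' p' q') fun l => s' (x l)) := by
        rw [hpg]
        have hT1'' := hT1'
        rw [pprod_inst _ (fun a b => Classical.propDecidable (a = b)) (gfn E₀ d α p q) x,
          pprod_inst _ (fun a b => Classical.propDecidable (a = b)) (gfn E₀ d α' p' q')] at hT1''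
        show S.T (pprod (gfn E₀ d α p q) x) _
        rw [pprod_inst _ (fun a b => Classical.propDecidable (a = b)) (gfn E₀ d α p q) x,
          pprod_inst _ (fun a b => Classical.propDecidable (a = b)) (gfn E₀ d α' p' q')]
        exact hT1''
      have hT2 : S.T (pd x) (pprod (fun z z' => z - z') fun l => s' (x l)) := by
        rw [hpd]
        have hT2'' := hT2'
        rw [pprod_inst _ (fun a b => Classical.propDecidable (a = b)) (fun z z' => z - z') x,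
          pprod_inst (K := DK) _ (fun a b => Classical.propDecidable (a = b))
            (fun z z' => z - z')] at hT2''
        show S.T (pprod (fun z z' => z - z') x) _
        rw [pprod_inst _ (fun a b => Classical.propDecidable (a = b)) (fun z z' => z - z') x,
          pprod_inst (K := DK) _ (fun a b => Classical.propDecidable (a = b)) (fun z z' => z - z')]
        exact hT2''
      have hinj' : Function.Injective fun l => s' (x l) := by
        intro l l' hll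
        exact hxi (hinj (hxP l) (hxP l') hll)
      obtain ⟨hF1, hF2⟩ := hlam p' q' hp' hq' hc' (P.image s') hstab hcard α' hα' hαe' hcr
        (fun l => s' (x l)) hinj' (fun l => Finset.mem_image_of_mem _ (hxP l))
      have h0 : pg x ≠ 0 := pprod_ne hxi fun z z' hz => gfn_ne (by omega) hp hq hc hα hz
      have h0' : pd x ≠ 0 := pprod_ne hxi fun z z' hz => sub_ne_zero.2 hz
      set pp := pprod (gfn E₀ d α' p' q') fun l => s' (x l) with hppd
      set dd := pprod (fun z z' => z - z') fun l => s' (x l) with hddd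
      have hpp0 : pp ≠ 0 := S.ne_zero (x := pg x) hT1 (hT _ (mpgi x hx)) h0
      have hdd0 : dd ≠ 0 := S.ne_zero (x := pd x) hT2 (hT _ (mpdi x hx)) h0'
      have hppi : Bd C₁ pp⁻¹ := hbd _ (mpgi x hx) _ (S.inv (x := pg x) hT1 (hT _ (mpgi x hx)) h0)
      have hddb : Bd C₁ dd := hbd _ (mpd x hx) _ hT2
      have hPhi : PhiY φ E₀ d α' p' q' (fun l => s' (x l)) (fun z => DDer z) =
          W x ^ A1 * pp ^ A2 / dd ^ A3 := by
        unfold PhiY
        rw [hW]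
        simp only [← hs'sg _ (hxP _)]
        rfl
      have hkey : W x ^ (A1 * C') = (PhiY φ E₀ d α' p' q' (fun l => s' (x l))
          (fun z => DDer z) ^ C' * GG E₀ d α' p' q' (P.image s')) *
          ((GG E₀ d α' p' q' (P.image s'))⁻¹ * ((dd ^ A3) ^ C' * ((pp⁻¹) ^ A2) ^ C')) := by
        rw [hPhi]
        have h1 : (W x ^ A1 * pp ^ A2 / dd ^ A3) * dd ^ A3 * (pp⁻¹) ^ A2 = W x ^ A1 := by
          rw [div_mul_cancel₀ _ (pow_ne_zero _ hdd0), mul_assoc, ← mul_pow,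
            mul_inv_cancel₀ hpp0, one_pow, mul_one]
        calc W x ^ (A1 * C') = ((W x ^ A1 * pp ^ A2 / dd ^ A3) * dd ^ A3 * (pp⁻¹) ^ A2) ^ C' := by
              rw [h1, pow_mul]
          _ = (W x ^ A1 * pp ^ A2 / dd ^ A3) ^ C' * ((dd ^ A3) ^ C' * ((pp⁻¹) ^ A2) ^ C') := by
              rw [mul_pow, mul_pow, mul_assoc]
          _ = _ := by
              have hGn := hGi.2
              generalize GG E₀ d α' p' q' (P.image s') = G at hGn
              generalize (W x ^ A1 * pp ^ A2 / dd ^ A3) ^ C' = F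
              generalize ((dd ^ A3) ^ C' * ((pp⁻¹) ^ A2) ^ C') = R
              rw [mul_assoc, ← mul_assoc G, mul_inv_cancel₀ hGn, one_mul]
      have hb1 : Bd B1 (W x ^ (A1 * C')) := by
        rw [hkey]
        exact Bd.mul ⟨hF1, hF2⟩ (hGi.1.mul (((hddb.pow A3).pow C').mul ((hppi.pow A2).pow C')))
      exact hb1.root hA1pos hWreg
    · have h1 : W x = 0 := by
        unfold Function.Injective at hxi
        push Not at hxi
        obtain ⟨l, l', hll, hne⟩ := hxi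
        rw [hW]
        apply wro_zero φ _ _ hne
        · simp only [hll]
        · simp only [hll]
      rw [h1]
      refine ⟨reg_zero, ?_⟩
      rw [fn_zero, norm_zero]
      exact zero_le_one.trans (le_max_left _ _)
  -- the vector
  set lv : Fin w → DK := fun j => DDer (sg S (t j)) with hlv
  have hlvreg : ∀ j, Reg (lv j) 0 := fun j => reg_der (hsgbd _ (mt j)).1
  set v : Fin w → ℂ := fun j => Fn (lv j) 0 with hv
  have hlvb : ∀ j, Bd ‖v‖ (lv j) := fun j => ⟨hlvreg j, norm_le_pi_norm v j⟩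
  have hvB : ‖v‖ ≤ max 1 B3 := by
    apply vec_bound v M₀ (cst φ) hcst
    intro j₀
    have h1 := ident S φ PF (g j₀) (fun j => δ j) j₀ (M₀ + cst φ) (hid j₀)
      (fun x hx l => hdom _ (mP _ (hPFm x hx l)))
      (fun x hx l j => hdom _ (mdP j _ (hPFm x hx l)))
      (fun x hx s hs => hdom _ (mg j₀ x hx s hs)) lv
    have h2 : ∀ x ∈ PF, wro φ (fun l => sg S (x l))
        (fun l => ∑ j, sg S (δ j (x l)) * lv j) = W x := by
      intro x hx
      rw [hW]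
      congr 1
      funext l
      exact (hDs _ (mP _ (hPFm x hx l)) _ (sg_T S (hdom _ (mP _ (hPFm x hx l))))).symm
    have h3 : Bd (∑ x ∈ PF, B2 * ∑ m ∈ (g j₀ x).support, C₁ * ‖v‖ ^ M₀)
        (lv j₀ ^ (M₀ + cst φ)) := by
      rw [h1]
      apply Bd.sum
      intro x hx
      rw [h2 x hx]
      apply (hWb x hx).mul
      apply Bd.sum
      intro m hm
      apply (hsgbd _ (mg j₀ x hx m hm)).mul
      have h4 : ‖v‖ ^ M₀ = ∏ j, ‖v‖ ^ m j := by
        rw [Finset.prod_pow_eq_pow_sum]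
        congr 1
        have h5 := hg j₀ x (MvPolynomial.mem_support_iff.1 hm)
        rw [← h5, Finsupp.weight_apply, Finsupp.sum_fintype]
        · simp
        · simp
      rw [h4]
      apply Bd.prod
      intro j _
      exact (hlvb j).pow (m j)
    have h4 := h3.2
    rw [fn_pow (hlvreg j₀), norm_pow] at h4
    refine h4.trans ?_
    have h5 : ∑ x ∈ PF, B2 * ∑ m ∈ (g j₀ x).support, C₁ * ‖v‖ ^ M₀ =
        (∑ x ∈ PF, B2 * ((g j₀ x).support.card * C₁)) * ‖v‖ ^ M₀ := by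
      rw [Finset.sum_mul]
      apply Finset.sum_congr rfl
      intro x _
      rw [Finset.sum_const, nsmul_eq_mul]
      ring
    rw [h5]
    apply mul_le_mul_of_nonneg_right _ (by positivity)
    have hB20 : 0 ≤ B2 := zero_le_one.trans (le_max_left _ _)
    apply Finset.single_le_sum (f := fun j₀ => ∑ x ∈ PF, B2 * ((g j₀ x).support.card * C₁))
      _ (Finset.mem_univ j₀)
    intro j _
    apply Finset.sum_nonneg
    intro x _
    positivity
  -- the conclusion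
  have h1 := hDs (u i) (mu i) s hs
  have h2 : Bd (∑ _j : Fin w, C₁ * ‖v‖) (DDer s) := by
    rw [h1]
    apply Bd.sum
    intro j _
    exact (hsgbd _ (mdu j i)).mul (hlvb j)
  refine h2.2.trans ?_
  apply Finset.sum_le_sum
  intro j _
  exact mul_le_mul_of_nonneg_left hvB (by linarith)

end Pool.Agent.Q144.KO
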