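import Pool.Agent.Q144.KO.F4b
import Pool.Agent.Q144.KO.F4d

/-!
# (F4): the derivatives of discs are locally bounded
-/

set_option autoImplicit false

namespace Pool.Agent.Q144.KO

open Finset Polynomial Filter Topology Metric
open Pool.Agent.Q41.SU
open Pool.Agent.Q41.GT
open Pool.Agent.Q103.EC
open Pool.Agent.Q103.KO
open Pool.Agent.TH466.QG (Sp hz hz_form val_hz adjoin_norm)
open Pool.Agent.W602.GT (val coords IsForm alg_adjoin exists_dual)

theorem exists_tb {K : Type} [Field K] [Algebra ℂ K] {σ : Type} [Finite σ] {u : σ → K}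
    (hu : IntermediateField.adjoin ℂ (Set.range u) = ⊤) :
    ∃ (w : ℕ) (t : Fin w → K), IsTranscendenceBasis ℂ t := by
  have halg : Algebra.IsAlgebraic (IntermediateField.adjoin ℂ (Set.range u)) K := by
    rw [hu]
    infer_instance
  have halg' := alg_adjoin halg
  obtain ⟨B, hB, hBb⟩ := exists_isTranscendenceBasis_subset (R := ℂ) (A := K) (Set.range u)
  have hfin : Finite B := ((Set.finite_range u).subset hB).to_subtype
  obtain ⟨w, ⟨e⟩⟩ := Finite.exists_equiv_fin B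
  exact ⟨w, fun i => e.symm i, hBb.comp_equiv e.symm⟩

/-- (F4) **The derivatives of discs are locally bounded.** -/
theorem t_dbd : S_ldk → S_gen → S_spd → S_spf → S_alp → S_dbd := by
  classical
  intro hldk hgen hspd hspf halp d hd
  obtain ⟨a, b, φ, hb, hba, ha, hφ, hcst, hldk⟩ := hldk d hd
  obtain ⟨B, hB⟩ := hgen d a b φ hd hφ hcst
  refine ⟨B, ?_⟩
  intro K _ _ M x hx hcoords p q hp hq hc P hP hcard halg
  obtain ⟨P', hP'sub, hP', hgen'⟩ := hB ℂ K p q hp hq hc P hP hcard halg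
  obtain ⟨E₀, hE₀, halp'⟩ := halp d hd P'.card
  obtain ⟨α, hα, hαe⟩ := halp' K p q P' hP' rfl
  obtain ⟨C', hC', hldk'⟩ := hldk P'.card E₀ hE₀
  obtain ⟨i₁, hi₁⟩ := Function.ne_iff.1 hx
  have hi1 : x i₁ ≠ 0 := hi₁
  obtain ⟨u, hu⟩ : ∃ u : Fin (M + 1) → K, u = fun i => x i / x i₁ := ⟨_, rfl⟩
  have hadj : IntermediateField.adjoin ℂ (Set.range u) = ⊤ := by
    rw [hu]
    exact adjoin_norm hcoords hi1
  obtain ⟨w, t, ht⟩ := exists_tb hadj
  obtain ⟨δ, hδ⟩ := exists_dual ht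
  have hδ' : ∀ i j, δ i (t j) = if i = j then 1 else 0 := by
    intro i j
    have h1 := congrFun (congrFun hδ i) j
    rw [Matrix.of_apply, Matrix.one_apply] at h1
    exact h1
  obtain ⟨M₀, hM₀⟩ := hgen' w t ht δ hδ'
  choose g hg hid using hM₀
  obtain ⟨Θ, hΘ, hΘt, hΘu, hest⟩ := main_est φ ha hb hcst hd hE₀ hC' hldk' hspf p q hp hq hc P'
    hP' rfl α hα hαe t δ M₀ g hg hid u
  obtain ⟨H, hH, hG, hspd'⟩ := hspd ℂ K (Fin (M + 1)) u hadj w t ht δ hδ' Θ hΘ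
  choose! G hG using hG
  refine ⟨i₁, MvPolynomial.X i₁ * hz i₁ H, ?_, ?_, ?_, ?_⟩
  · obtain ⟨e, he⟩ := hz_form i₁ H
    exact ⟨1 + e, (MvPolynomial.isHomogeneous_X ℂ i₁).mul he⟩
  · show MvPolynomial.aeval x _ ≠ 0
    rw [map_mul, MvPolynomial.aeval_X]
    refine mul_ne_zero hi1 ?_
    show val x _ ≠ 0
    rw [val_hz H hi1]
    rw [hu] at hH
    exact mul_ne_zero (pow_ne_zero _ hi1) hH
  · intro a' ha'
    rw [map_mul, MvPolynomial.eval_X] at ha'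
    exact left_ne_zero_of_mul ha'
  intro a0 _ ha0
  rw [map_mul, MvPolynomial.eval_X] at ha0
  have ha1 : a0 i₁ ≠ 0 := left_ne_zero_of_mul ha0
  obtain ⟨a', ha'⟩ : ∃ a' : Fin (M + 1) → ℂ, a' = fun i => a0 i / a0 i₁ := ⟨_, rfl⟩
  have hHa : MvPolynomial.eval a' H ≠ 0 := by
    have h1 : val a0 (hz i₁ H) ≠ 0 := right_ne_zero_of_mul ha0
    rw [val_hz H ha1] at h1
    rw [ha']
    exact right_ne_zero_of_mul h1
  have hcH : Continuous fun b : Fin (M + 1) → ℂ => MvPolynomial.eval b H :=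
    MvPolynomial.continuous_eval H
  obtain ⟨C₀, hC₀⟩ := (hΘ.image fun ϑ =>
    ‖MvPolynomial.eval a' (G ϑ) * (MvPolynomial.eval a' H)⁻¹‖ + 1).bddAbove
  have hnear : ∀ᶠ b in 𝓝 a', MvPolynomial.eval b H ≠ 0 ∧
      ∀ ϑ ∈ Θ, ‖MvPolynomial.eval b (G ϑ) * (MvPolynomial.eval b H)⁻¹‖ ≤ C₀ := by
    refine (hcH.continuousAt.eventually_ne hHa).and ((Filter.eventually_all_finite hΘ).2 ?_)
    intro ϑ hϑ
    have h1 : ContinuousAt (fun b : Fin (M + 1) → ℂ =>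
        ‖MvPolynomial.eval b (G ϑ) * (MvPolynomial.eval b H)⁻¹‖) a' :=
      ((MvPolynomial.continuous_eval (G ϑ)).continuousAt.mul
        (hcH.continuousAt.inv₀ hHa)).norm
    have h2 : ‖MvPolynomial.eval a' (G ϑ) * (MvPolynomial.eval a' H)⁻¹‖ < C₀ := by
      have := hC₀ ⟨ϑ, hϑ, rfl⟩
      simp only at this
      linarith
    filter_upwards [h1.eventually (gt_mem_nhds h2)] with b hb
    exact le_of_lt hb
  rw [Metric.eventually_nhds_iff] at hnear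
  obtain ⟨r, hr, hnear⟩ := hnear
  obtain ⟨C, hC⟩ := hest C₀
  refine ⟨r, 8 * max C 1, hr, by positivity, ?_⟩
  intro f hf hf0 hfb i
  obtain ⟨z, hz1, hz2⟩ := disc_pt hf hi1 hf0
  rw [← hu] at hz2
  obtain ⟨b', hb'⟩ : ∃ b' : Fin (M + 1) → ℂ, b' = fun i => f 0 i / f 0 i₁ := ⟨_, rfl⟩
  have hFz : (fun i => Fn (z i) 0) = b' := by
    rw [hb']
    funext i
    exact (hz1 i).2.1
  have hbn := hnear (y := b') (by
    rw [dist_pi_lt_iff hr]
    intro i
    rw [dist_eq_norm, hb', ha']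
    exact hfb i)
  have hev : ∀ Q : MvPolynomial (Fin (M + 1)) ℂ, Reg (MvPolynomial.aeval z Q) 0 ∧
      Fn (MvPolynomial.aeval z Q) 0 = MvPolynomial.eval b' Q := by
    intro Q
    have := fn_aeval z (fun i => (hz1 i).1) Q
    rw [hFz] at this
    exact this
  have hHz : Fn (MvPolynomial.aeval z H) 0 ≠ 0 := by
    rw [(hev H).2]
    exact hbn.1
  have hHz0 : MvPolynomial.aeval z H ≠ 0 := by
    intro h0
    rw [h0] at hHz
    exact hHz fn_zero
  obtain ⟨S, hSu, hSΘ, hSD⟩ := hspd' DK z hz2 hHz0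
  have h1 := hC S (by
    intro ϑ hϑ
    obtain ⟨s, hs⟩ := hSΘ ϑ hϑ
    refine ⟨s, hs, ?_⟩
    have h2 : S.T (ϑ * MvPolynomial.aeval u H) (s * MvPolynomial.aeval z H) :=
      S.mul hs (S.val hSu H)
    rw [hG ϑ hϑ] at h2
    have h3 : s * MvPolynomial.aeval z H = MvPolynomial.aeval z (G ϑ) :=
      S.ext h2 (S.val hSu (G ϑ))
    have h4 : s = MvPolynomial.aeval z (G ϑ) * (MvPolynomial.aeval z H)⁻¹ := by
      rw [← h3, mul_assoc, mul_inv_cancel₀ hHz0, mul_one]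
    have h5 : Reg (MvPolynomial.aeval z H)⁻¹ 0 := (hev H).1.inv hHz zero_mem_Dm
    rw [h4]
    refine ⟨(hev _).1.mul h5 zero_mem_Dm, ?_⟩
    rw [fn_mul (hev _).1 h5, fn_inv (hev H).1 hHz, (hev _).2, (hev H).2]
    exact hbn.2 ϑ hϑ)
    (fun ϑ hϑ s hs => hSD DDer ϑ hϑ s hs) i (z i) (hSu i)
  rw [(hz1 i).2.2, norm_mul] at h1
  have h2 : ‖(1 / 8 : ℂ)‖ = 1 / 8 := by norm_num
  rw [h2] at h1
  have h3 : C ≤ max C 1 := le_max_left _ _
  linarith

end Pool.Agent.Q144.KO
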