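import Pool.Agent.Q103.KO.Fn

/-!
# (F4), part 1: bounded values at `0`
-/

set_option autoImplicit false

namespace Pool.Agent.Q144.KO

open Filter Topology
open Pool.Agent.Q103.KO

/-- holomorphic at `0` with the value bounded by `C` -/
def Bd (C : ℝ) (x : DK) : Prop := Reg x 0 ∧ ‖Fn x 0‖ ≤ C

theorem Bd.nonneg {C : ℝ} {x : DK} (h : Bd C x) : 0 ≤ C := (norm_nonneg _).trans h.2

theorem Bd.mono {C C' : ℝ} {x : DK} (h : Bd C x) (hC : C ≤ C') : Bd C' x := ⟨h.1, h.2.trans hC⟩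

theorem fn_add {x y : DK} (hx : Reg x 0) (hy : Reg y 0) : Fn (x + y) 0 = Fn x 0 + Fn y 0 :=
  (Fn_add zero_mem_Dm hx hy).self_of_nhds

theorem fn_mul {x y : DK} (hx : Reg x 0) (hy : Reg y 0) : Fn (x * y) 0 = Fn x 0 * Fn y 0 :=
  (Fn_mul zero_mem_Dm hx hy).self_of_nhds

theorem fn_zero : Fn 0 0 = 0 := by
  have h := (Fn_const 0 zero_mem_Dm).self_of_nhds
  rw [map_zero] at h
  exact h

theorem fn_one : Fn 1 0 = 1 := by
  have h := (Fn_const 1 zero_mem_Dm).self_of_nhds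
  rw [map_one] at h
  exact h

theorem reg_zero : Reg 0 0 := by
  have h := reg_const 0 zero_mem_Dm
  rwa [map_zero] at h

theorem reg_one : Reg 1 0 := by
  have h := reg_const 1 zero_mem_Dm
  rwa [map_one] at h

theorem reg_mem {x : DK} : x ∈ Oz ⟨0, zero_mem_Dm⟩ ↔ Reg x 0 := Iff.rfl

theorem reg_sum {I : Type} {s : Finset I} {f : I → DK} (h : ∀ i ∈ s, Reg (f i) 0) :
    Reg (∑ i ∈ s, f i) 0 := sum_mem (S := Oz ⟨0, zero_mem_Dm⟩) h

theorem reg_prod {I : Type} {s : Finset I} {f : I → DK} (h : ∀ i ∈ s, Reg (f i) 0) :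
    Reg (∏ i ∈ s, f i) 0 := prod_mem (S := Oz ⟨0, zero_mem_Dm⟩) h

theorem reg_pow {x : DK} (h : Reg x 0) (n : ℕ) : Reg (x ^ n) 0 :=
  pow_mem (S := Oz ⟨0, zero_mem_Dm⟩) h n

theorem fn_sum {I : Type} (s : Finset I) {f : I → DK} (h : ∀ i ∈ s, Reg (f i) 0) :
    Fn (∑ i ∈ s, f i) 0 = ∑ i ∈ s, Fn (f i) 0 := by
  classical
  induction s using Finset.induction_on with
  | empty => simpa using fn_zero
  | insert a s ha ih =>
    have h1 : ∀ i ∈ s, Reg (f i) 0 := fun i hi => h i (Finset.mem_insert_of_mem hi)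
    rw [Finset.sum_insert ha, Finset.sum_insert ha,
      fn_add (h a (Finset.mem_insert_self _ _)) (reg_sum h1), ih h1]

theorem fn_prod {I : Type} (s : Finset I) {f : I → DK} (h : ∀ i ∈ s, Reg (f i) 0) :
    Fn (∏ i ∈ s, f i) 0 = ∏ i ∈ s, Fn (f i) 0 := by
  classical
  induction s using Finset.induction_on with
  | empty => simpa using fn_one
  | insert a s ha ih =>
    have h1 : ∀ i ∈ s, Reg (f i) 0 := fun i hi => h i (Finset.mem_insert_of_mem hi)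
    rw [Finset.prod_insert ha, Finset.prod_insert ha,
      fn_mul (h a (Finset.mem_insert_self _ _)) (reg_prod h1), ih h1]

theorem fn_pow {x : DK} (h : Reg x 0) (n : ℕ) : Fn (x ^ n) 0 = Fn x 0 ^ n := by
  induction n with
  | zero => simpa using fn_one
  | succ n ih => rw [pow_succ, pow_succ, fn_mul (reg_pow h n) h, ih]

theorem Bd.add {C C' : ℝ} {x y : DK} (h : Bd C x) (h' : Bd C' y) : Bd (C + C') (x + y) := by
  refine ⟨h.1.add h'.1 zero_mem_Dm, ?_⟩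
  rw [fn_add h.1 h'.1]
  exact (norm_add_le _ _).trans (add_le_add h.2 h'.2)

theorem Bd.mul {C C' : ℝ} {x y : DK} (h : Bd C x) (h' : Bd C' y) : Bd (C * C') (x * y) := by
  refine ⟨h.1.mul h'.1 zero_mem_Dm, ?_⟩
  rw [fn_mul h.1 h'.1, norm_mul]
  exact mul_le_mul h.2 h'.2 (norm_nonneg _) h.nonneg

theorem Bd.pow {C : ℝ} {x : DK} (h : Bd C x) (n : ℕ) : Bd (C ^ n) (x ^ n) := by
  refine ⟨reg_pow h.1 n, ?_⟩
  rw [fn_pow h.1, norm_pow]
  exact pow_le_pow_left₀ (norm_nonneg _) h.2 n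

theorem Bd.sum {I : Type} (s : Finset I) {f : I → DK} {c : I → ℝ} (h : ∀ i ∈ s, Bd (c i) (f i)) :
    Bd (∑ i ∈ s, c i) (∑ i ∈ s, f i) := by
  refine ⟨reg_sum fun i hi => (h i hi).1, ?_⟩
  rw [fn_sum s fun i hi => (h i hi).1]
  exact (norm_sum_le _ _).trans (Finset.sum_le_sum fun i hi => (h i hi).2)

theorem Bd.prod {I : Type} (s : Finset I) {f : I → DK} {c : I → ℝ} (h : ∀ i ∈ s, Bd (c i) (f i)) :
    Bd (∏ i ∈ s, c i) (∏ i ∈ s, f i) := by
  refine ⟨reg_prod fun i hi => (h i hi).1, ?_⟩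
  rw [fn_prod s fun i hi => (h i hi).1, norm_prod]
  exact Finset.prod_le_prod (fun i _ => norm_nonneg _) fun i hi => (h i hi).2

/-- a root of a bounded element -/
theorem Bd.root {C : ℝ} {x : DK} {n : ℕ} (hn : 1 ≤ n) (hx : Reg x 0) (h : Bd C (x ^ n)) :
    Bd (max 1 C) x := by
  refine ⟨hx, ?_⟩
  by_contra hc
  push Not at hc
  obtain ⟨h1, h2⟩ := max_lt_iff.1 hc
  have h3 := h.2
  rw [fn_pow hx, norm_pow] at h3
  have h4 : ‖Fn x 0‖ ≤ ‖Fn x 0‖ ^ n := le_self_pow₀ h1.le (by omega)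
  linarith

theorem reg_der {x : DK} (hx : Reg x 0) : Reg (DDer x) 0 := by
  rw [DDer_apply]
  exact hx.MD zero_mem_Dm

theorem fn_der {x : DK} (hx : Reg x 0) : Fn (DDer x) 0 = deriv (Fn x) 0 := by
  rw [DDer_apply]
  exact (Fn_MD zero_mem_Dm hx).self_of_nhds

theorem fn_inv {x : DK} (hx : Reg x 0) (h0 : Fn x 0 ≠ 0) : Fn x⁻¹ 0 = (Fn x 0)⁻¹ :=
  (Fn_inv zero_mem_Dm hx h0).self_of_nhds

/-- the values of a polynomial -/
theorem fn_aeval {σ : Type} (z : σ → DK) (hz : ∀ i, Reg (z i) 0) (G : MvPolynomial σ ℂ) :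
    Reg (MvPolynomial.aeval z G) 0 ∧
      Fn (MvPolynomial.aeval z G) 0 = MvPolynomial.eval (fun i => Fn (z i) 0) G := by
  induction G using MvPolynomial.induction_on with
  | C c =>
    rw [MvPolynomial.aeval_C, MvPolynomial.eval_C]
    exact ⟨reg_const c zero_mem_Dm, (Fn_const c zero_mem_Dm).self_of_nhds⟩
  | add p q hp hq =>
    rw [map_add, map_add]
    exact ⟨hp.1.add hq.1 zero_mem_Dm, by rw [fn_add hp.1 hq.1, hp.2, hq.2]⟩
  | mul_X p i hp =>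
    rw [map_mul, map_mul, MvPolynomial.aeval_X, MvPolynomial.eval_X]
    exact ⟨hp.1.mul (hz i) zero_mem_Dm, by rw [fn_mul hp.1 (hz i), hp.2]⟩

end Pool.Agent.Q144.KO
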