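import Pool.Agent.Q103.KO.Stm2
import Pool.Agent.Q144.KO.F4a

/-!
# (F4), part 2: a disc as a point over the field of meromorphic functions
-/

set_option autoImplicit false

namespace Pool.Agent.Q144.KO

open Filter Topology Metric
open Pool.Agent.Q103.KO
open Pool.Agent.W602.GT (val coords IsForm)
open Pool.Agent.TH466.QG (hz hz_form val_hz)

theorem val_cl {M : ℕ} {f : Fin (M + 1) → ℂ → ℂ} (hmer : ∀ i, MeromorphicOn (f i) Dm)
    (G : MvPolynomial (Fin (M + 1)) ℂ) :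
    val (fun i => cl (f i) (hmer i)) G =
      cl (fun t => MvPolynomial.eval (fun i => f i t) G) (mero_eval hmer G) := by
  show MvPolynomial.aeval _ G = _
  induction G using MvPolynomial.induction_on with
  | C c =>
    rw [MvPolynomial.aeval_C, ← cl_const, cl_eq]
    exact Eventually.of_forall fun t => by simp
  | add p q hp hq =>
    rw [map_add, hp, hq, cl_add, cl_eq]
    exact Eventually.of_forall fun t => by simp
  | mul_X p i hp =>
    rw [map_mul, hp, MvPolynomial.aeval_X, cl_mul, cl_eq]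
    exact Eventually.of_forall fun t => by simp

/-- a disc as a point over `DK` -/
theorem disc_pt {M : ℕ} {L : Type} [Field L] [Algebra ℂ L] {x : Fin (M + 1) → L}
    {g : ℂ → Fin (M + 1) → ℂ} (hg : Disc x g) {i₁ : Fin (M + 1)} (hx1 : x i₁ ≠ 0)
    (h0 : g 0 i₁ ≠ 0) :
    ∃ z : Fin (M + 1) → DK, (∀ i, Reg (z i) 0 ∧ Fn (z i) 0 = g 0 i / g 0 i₁ ∧
      Fn (DDer (z i)) 0 = 1 / 8 * deriv (fun t => g t i / g t i₁) 0) ∧
      ∀ G : MvPolynomial (Fin (M + 1)) ℂ, MvPolynomial.aeval (fun i => x i / x i₁) G = 0 →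
        MvPolynomial.aeval z G = 0 := by
  have hball : ∀ t ∈ Dm, t / 8 ∈ ball (0 : ℂ) 1 := by
    intro t ht
    rw [mem_ball_zero_iff] at ht ⊢
    rw [norm_div]
    norm_num
    linarith
  obtain ⟨f, hf⟩ : ∃ f : Fin (M + 1) → ℂ → ℂ, ∀ i t, f i t = g (t / 8) i := ⟨_, fun _ _ => rfl⟩
  have hf0 : ∀ i, f i 0 = g 0 i := fun i => by rw [hf, zero_div]
  have hfan : ∀ i, ∀ t ∈ Dm, AnalyticAt ℂ (f i) t := by
    intro i t ht
    have h1 : f i = (fun s => g s i) ∘ fun t => t / 8 := by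
      funext v
      exact hf i v
    rw [h1]
    have h2 : AnalyticAt ℂ (fun s => g s i) (t / 8) :=
      ((hg.hol i).analyticOnNhd isOpen_ball) _ (hball t ht)
    have h3 : AnalyticAt ℂ (fun t : ℂ => t / 8) t := by fun_prop
    exact AnalyticAt.comp h2 h3
  have hmer : ∀ i, MeromorphicOn (f i) Dm := fun i t ht => (hfan i t ht).meromorphicAt
  obtain ⟨y, hy⟩ : ∃ y : Fin (M + 1) → DK, y = fun i => cl (f i) (hmer i) := ⟨_, rfl⟩
  have hy1 : y i₁ ≠ 0 := by
    intro h
    rw [hy] at h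
    have h1 := cl_eq_zero.1 h
    have h2 := eq_of_cod (g := fun _ => 0) h1 zero_mem_Dm (hfan i₁ 0 zero_mem_Dm).continuousAt
      continuousAt_const
    rw [hf0] at h2
    exact h0 h2
  have hzc : ∀ i, y i / y i₁ = cl (f i * (f i₁)⁻¹) ((hmer i).mul (hmer i₁).inv) := by
    intro i
    rw [div_eq_mul_inv, hy]
    show cl (f i) (hmer i) * (cl (f i₁) (hmer i₁))⁻¹ = _
    rw [cl_inv, cl_mul]
  have hg1 : f i₁ 0 ≠ 0 := by rw [hf0]; exact h0
  have han : ∀ i, AnalyticAt ℂ (f i * (f i₁)⁻¹) 0 := fun i =>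
    (hfan i 0 zero_mem_Dm).mul ((hfan i₁ 0 zero_mem_Dm).inv hg1)
  have hFn : ∀ i, Fn (y i / y i₁) =ᶠ[𝓝 0] f i * (f i₁)⁻¹ := by
    intro i
    rw [hzc]
    exact Fn_cl _ zero_mem_Dm (han i)
  have hreg : ∀ i, Reg (y i / y i₁) 0 := fun i => (han i).congr (hFn i).symm
  refine ⟨fun i => y i / y i₁, fun i => ⟨hreg i, ?_, ?_⟩, ?_⟩
  · rw [(hFn i).self_of_nhds, Pi.mul_apply, Pi.inv_apply, hf0, hf0, div_eq_mul_inv]
  · rw [fn_der (hreg i), (hFn i).deriv_eq]
    have h1 : AnalyticAt ℂ (fun s => g s i / g s i₁) 0 := by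
      have ha : AnalyticAt ℂ (fun s => g s i) 0 :=
        ((hg.hol i).analyticOnNhd isOpen_ball) _ (mem_ball_self one_pos)
      have hb : AnalyticAt ℂ (fun s => g s i₁) 0 :=
        ((hg.hol i₁).analyticOnNhd isOpen_ball) _ (mem_ball_self one_pos)
      exact ha.fun_div hb h0
    have h2 : HasDerivAt (fun s => g s i / g s i₁) (deriv (fun s => g s i / g s i₁) 0)
        ((0 : ℂ) / 8) := by
      rw [zero_div]
      exact h1.differentiableAt.hasDerivAt
    have h3 : HasDerivAt (fun t : ℂ => t / 8) (1 / 8) 0 := (hasDerivAt_id (0 : ℂ)).div_const 8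
    have h4 := HasDerivAt.comp (0 : ℂ) h2 h3
    have h5 : (f i * (f i₁)⁻¹) = (fun s => g s i / g s i₁) ∘ fun t : ℂ => t / 8 := by
      funext t
      rw [Pi.mul_apply, Pi.inv_apply, hf, hf, ← div_eq_mul_inv]
      rfl
    rw [h5, h4.deriv, mul_comm]
  · intro G hG
    have h1 : val x (hz i₁ G) = 0 := by rw [val_hz G hx1, hG, mul_zero]
    have h2 : val y (hz i₁ G) = 0 := by
      rw [hy, val_cl hmer, cl_eq_zero]
      filter_upwards [cod_Dm] with t ht
      have h3 := hg.mem _ (hz_form i₁ G) h1 (t / 8) (hball t ht)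
      have h4 : (fun i => f i t) = g (t / 8) := by
        funext i
        rw [hf]
      rw [h4]
      exact h3
    rw [val_hz G hy1] at h2
    exact (mul_eq_zero.1 h2).resolve_left (pow_ne_zero _ hy1)

end Pool.Agent.Q144.KO
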